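import Pool.Agent.Lib.MP_4952d6_mp.Pm.M07

/-!
# Ps.S01: the lower bound at fixed particle number with an arbitrary even symbol

Copies of `pre_sumM`, `PreC_modesM`, `pre8M` with `ksq p + φ p` in place of `ksq p + lam`, for even functions `φ` with
`|φ p| ≤ Λ ≤ 2 π²`.
-/

set_option autoImplicit false
set_option linter.unusedSectionVars false
set_option linter.unusedVariables false
open MeasureTheory Function Filter Topology Set ComplexConjugate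

namespace Pool.Agent.Lib.MP_4952d6_mp.LB

/-- Even functions of the momentum with `|φ p| ≤ Λ ≤ 2 π²`. -/
structure SymL (Λ : ℝ) (φ : (Fin 3 → ℤ) → ℝ) : Prop where
  neg : ∀ p, φ (-p) = φ p
  abs : ∀ p, |φ p| ≤ Λ
  le : Λ ≤ 2 * Real.pi ^ 2

lemma SymL.ge {Λ : ℝ} {φ : (Fin 3 → ℤ) → ℝ} (h : SymL Λ φ) (p : Fin 3 → ℤ) :
    -(2 * Real.pi ^ 2) ≤ φ p := by
  have h1 := neg_abs_le (φ p)
  have h2 := h.abs p
  have h3 := h.le
  linarith

lemma SymL.nonneg {Λ : ℝ} {φ : (Fin 3 → ℤ) → ℝ} (h : SymL Λ φ) : 0 ≤ Λ :=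
  (abs_nonneg _).trans (h.abs 0)

/-- The lattice sum with the symbol `ksq p + φ p`. -/
noncomputable def LSp (t : ℝ) (φ : (Fin 3 → ℤ) → ℝ) (G : ℝ) : ℝ :=
  ∑' p : Fin 3 → ℤ, if p = 0 then 0 else
    et t p ^ 2 * (epsf G (ksq p + φ p) - (ksq p + φ p) - G)

lemma summable_LSp {t Λ G : ℝ} {φ : (Fin 3 → ℤ) → ℝ} (ht : 0 < t) (hl : SymL Λ φ) (hG : 0 ≤ G) :
    Summable fun p : Fin 3 → ℤ => if p = 0 then 0 else
      et t p ^ 2 * (epsf G (ksq p + φ p) - (ksq p + φ p) - G) := by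
  refine Summable.of_norm_bounded ((PreA_summable_et ht).mul_right G) fun p => ?_
  split_ifs with hp
  · rw [norm_zero]
    exact mul_nonneg (sq_nonneg _) hG
  · have hE : 0 ≤ ksq p + φ p := (ksq_add_pos (hl.ge p) hp).le
    have h1 := epsf_le hG hE
    have h2 := epsf_ge hG hE
    rw [Real.norm_eq_abs, abs_mul, abs_of_nonneg (sq_nonneg _)]
    apply mul_le_mul_of_nonneg_left _ (sq_nonneg _)
    rw [abs_le]
    constructor <;> linarith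

/-- `LSp` is antitone in `G`. -/
lemma LSp_anti {t Λ G G' : ℝ} {φ : (Fin 3 → ℤ) → ℝ} (ht : 0 < t) (hl : SymL Λ φ) (hG' : 0 ≤ G')
    (h : G' ≤ G) : LSp t φ G ≤ LSp t φ G' := by
  unfold LSp
  refine (summable_LSp ht hl (hG'.trans h)).tsum_le_tsum (fun p => ?_) (summable_LSp ht hl hG')
  split_ifs with hp
  · exact le_rfl
  · have hE := ksq_add_pos (hl.ge p) hp
    have h1 := epsf_sub_le hG' h hE
    exact mul_le_mul_of_nonneg_left (by linarith) (sq_nonneg _)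

/-- summability of the right side -/
lemma pre_summableP {N : ℕ} {s t Λ g : ℝ} {φ : (Fin 3 → ℤ) → ℝ} (hs : 0 < s) (ht : 0 < t)
    (hl : SymL Λ φ) (hg : 0 ≤ g) {ψ : HS (Fin N)} (hψ : ‖ψ‖ = 1)
    (hkin : ∀ j, Summable fun k : Fin N → Fin 3 → ℤ => ksq (k j) * ‖cf ψ k‖ ^ 2) :
    Summable fun p : Fin 3 → ℤ => if p = 0 then 0 else
          (et t p ^ 2 * (ksq p + φ p) * nk ψ p + g * Real.exp (-(s * ksq p)) / 2 * Rsq t ψ p) := by
  refine Summable.of_nonneg_of_le (fun p => ?_) (fun p => ?_)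
    (PreB_summable hs ht hl.nonneg hg hψ hkin)
  · split_ifs with hp
    · exact le_rfl
    · refine add_nonneg ?_ ?_
      · exact mul_nonneg (mul_nonneg (sq_nonneg _) (ksq_add_pos (hl.ge p) hp).le) (nk_nonneg ψ p)
      · unfold Rsq
        positivity
  · split_ifs with hp
    · exact PreB_nonneg hl.nonneg hg ψ p
    · have h1 : ksq p + φ p ≤ ksq p + Λ := by linarith [le_abs_self (φ p), hl.abs p]
      have h2 : et t p ^ 2 * (ksq p + φ p) * nk ψ p ≤ et t p ^ 2 * (ksq p + Λ) * nk ψ p :=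
        mul_le_mul_of_nonneg_right (mul_le_mul_of_nonneg_left h1 (sq_nonneg _)) (nk_nonneg ψ p)
      linarith

theorem pre_sumP {N : ℕ} (hN : 0 < N) {s t Λ g : ℝ} {φ : (Fin 3 → ℤ) → ℝ} (hs : 0 < s) (ht : 0 < t)
    (hl : SymL Λ φ) (hg : 0 ≤ g) {ψ : HS (Fin N)} (hψ : ‖ψ‖ = 1)
    (hkin : ∀ j, Summable fun k : Fin N → Fin 3 → ℤ => ksq (k j) * ‖cf ψ k‖ ^ 2) :
    1 / 2 * LSp t φ (N * g) + 1 / 2 * (N * g) * (∑' p : Fin 3 → ℤ, et t p ^ 2) - 1 / 2 * (N * g)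
      - 1 / 2 * (N * g) * s * (∑' p : Fin 3 → ℤ, et t p ^ 2 * ksq p)
      - 1 / 2 * ((∑ j, ‖perp j ψ‖ ^ 2) / N) * (N * g) * (∑' p : Fin 3 → ℤ, et t p ^ 2)
      - 1 / 2 * ((∑ j, ‖perp j ψ‖ ^ 2) / N) * (1 / t + Λ + N * g)
      ≤ ∑' p : Fin 3 → ℤ, if p = 0 then 0 else
          (et t p ^ 2 * (ksq p + φ p) * nk ψ p + g * Real.exp (-(s * ksq p)) / 2 * Rsq t ψ p) := by
  have hN' : (0 : ℝ) < N := by exact_mod_cast hN
  have hG : 0 ≤ N * g := mul_nonneg hN'.le hg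
  have hNp0 : 0 ≤ ∑ j, ‖perp j ψ‖ ^ 2 := Finset.sum_nonneg fun j _ => sq_nonneg _
  have hsp := sum_perp ψ
  rw [Fintype.card_fin, hψ, one_pow, mul_one] at hsp
  have htn := tsum_nk ψ
  rw [Fintype.card_fin, hψ, one_pow, mul_one] at htn
  generalize (∑ j, ‖perp j ψ‖ ^ 2) = Np at *
  have hNp : nk ψ 0 = N - Np := by linarith
  have hF := (pre_summableP hs ht hl hg hψ hkin).hasSum
  have hF2 := (Equiv.neg (Fin 3 → ℤ)).hasSum_iff.2 hF
  have hA := (summable_LSp ht hl hG).hasSum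
  have hS := (PreA_summable_et ht).hasSum
  have hK := (summable_et_ksq ht).hasSum
  have hn := (summable_nk ψ).hasSum
  have hn2 := (Equiv.neg (Fin 3 → ℤ)).hasSum_iff.2 hn
  have h0 := hasSum_ite_eq (0 : Fin 3 → ℤ) (N * g - Np / N * (N * g)
    - (1 / t + Λ + N * g) / (2 * N) * (nk ψ 0 + nk ψ 0))
  have hL := ((((hA.add (hS.mul_left (N * g))).sub (hK.mul_left (N * g * s))).sub
    (hS.mul_left (Np / N * (N * g)))).sub ((hn.add hn2).mul_left ((1 / t + Λ + N * g) / (2 * N)))).sub h0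
  have key := hasSum_le (fun p => ?_) hL (hF.add hF2)
  · rw [htn] at key
    have e1 : (∑' p : Fin 3 → ℤ, if p = 0 then (0 : ℝ) else
      et t p ^ 2 * (epsf (N * g) (ksq p + φ p) - (ksq p + φ p) - N * g)) = LSp t φ (N * g) := rfl
    rw [e1, hNp] at key
    have e2 : (1 / t + Λ + N * g) / (2 * N) * ((N : ℝ) + N)
        - (1 / t + Λ + N * g) / (2 * N) * (N - Np + (N - Np)) = Np / N * (1 / t + Λ + N * g) := by
      field_simp
      ring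
    have e3 : 0 ≤ Np / N * (N * g) := by positivity
    linear_combination (1 / 2 : ℝ) * key + (1 / 2 : ℝ) * e2 + (1 / 2 : ℝ) * e3
  · simp only [Function.comp_apply, Equiv.neg_apply]
    by_cases hp : p = 0
    · subst hp
      simp only [if_true, neg_zero, et_zero, ksq_zero]
      linarith
    · have hp' : -p ≠ 0 := neg_ne_zero.2 hp
      rw [if_neg hp, if_neg hp, if_neg hp, if_neg hp', sub_zero]
      have h1 := PreB_termM (lam := φ p) hN hs ht (hl.ge p) hg hψ hNp hNp0 hp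
      have h2 : (1 / t + |φ p| + N * g) / (2 * N) * (nk ψ p + nk ψ (-p))
          ≤ (1 / t + Λ + N * g) / (2 * N) * (nk ψ p + nk ψ (-p)) := by
        refine mul_le_mul_of_nonneg_right ?_ (add_nonneg (nk_nonneg _ _) (nk_nonneg _ _))
        refine div_le_div_of_nonneg_right ?_ (by positivity)
        linarith [hl.abs p]
      rw [hl.neg p]
      linarith

/-- The sum over the nonzero momenta is at most kinetic energy, mass and interaction. -/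
lemma PreC_modesP {N : ℕ} {s t Λ g : ℝ} {φ : (Fin 3 → ℤ) → ℝ} (hs : 0 < s) (ht : 0 < t)
    (hl : SymL Λ φ)
    (hg : 0 ≤ g) {ψ : HS (Fin N)} (hψ : ‖ψ‖ = 1)
    (hkin : ∀ j, Summable fun k : Fin N → Fin 3 → ℤ => ksq (k j) * ‖cf ψ k‖ ^ 2) :
    (∑' p : Fin 3 → ℤ, if p = 0 then 0 else
          (et t p ^ 2 * (ksq p + φ p) * nk ψ p + g * Real.exp (-(s * ksq p)) / 2 * Rsq t ψ p))
      ≤ (∑ j, ∑' k : Fin N → Fin 3 → ℤ, et t (k j) ^ 2 * ksq (k j) * ‖cf ψ k‖ ^ 2)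
        + (∑' p : Fin 3 → ℤ, if p = 0 then 0 else φ p * nk ψ p)
        + Λ * (∑' a, (1 - et t a ^ 2) * nk ψ a)
        + g / 2 * ((∑' p : Fin 3 → ℤ, Real.exp (-(s * ksq p)) * Rsq t ψ p) - Rsq t ψ 0) := by
  have hη0 : ∀ a, 0 < et t a := et_pos t
  have hη1 : ∀ a, et t a ≤ 1 := et_le_one ht.le
  have hη2 : ∀ a, et t a ^ 2 ≤ 1 := fun a => pow_le_one₀ (hη0 a).le (hη1 a)
  obtain ⟨k1, k2⟩ := sum_mult (φ := fun p => et t p ^ 2 * ksq p)
    (fun p => mul_nonneg (sq_nonneg _) (ksq_nonneg p)) ψ (fun j => by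
      refine Summable.of_nonneg_of_le (fun K => mul_nonneg (mul_nonneg (sq_nonneg _) (ksq_nonneg _))
        (sq_nonneg _)) (fun K => ?_) (hkin j)
      exact mul_le_mul_of_nonneg_right (mul_le_of_le_one_left (ksq_nonneg _) (hη2 _)) (sq_nonneg _))
  rw [k2]
  have n1 : Summable fun p : Fin 3 → ℤ => if p = 0 then 0 else φ p * nk ψ p := by
    refine Summable.of_norm_bounded ((summable_nk ψ).mul_left Λ) fun p => ?_
    have h1 := nk_nonneg ψ p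
    split_ifs with hp
    · rw [norm_zero]
      exact mul_nonneg hl.nonneg h1
    · rw [Real.norm_eq_abs, abs_mul, abs_of_nonneg h1]
      exact mul_le_mul_of_nonneg_right (hl.abs p) h1
  obtain ⟨d1, -⟩ := den_ge hs ht ψ hψ
  obtain ⟨r1, r2⟩ := PreC_split d1
  have s1 : Summable fun a => (1 - et t a ^ 2) * nk ψ a :=
    PreC_summable ψ (fun a => by have := hη2 a; linarith)
      (fun a => by have := sq_nonneg (et t a); linarith)
  have r3 : (∑' p : Fin 3 → ℤ, Real.exp (-(s * ksq p)) * Rsq t ψ p) - Rsq t ψ 0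
      = ∑' p : Fin 3 → ℤ, if p = 0 then 0 else Real.exp (-(s * ksq p)) * Rsq t ψ p := by
    rw [r2, ksq_zero, mul_zero, neg_zero, Real.exp_zero, one_mul]
  rw [r3, ← tsum_mul_left, ← tsum_mul_left, ← k1.tsum_add n1,
    ← (k1.add n1).tsum_add (s1.mul_left Λ),
    ← ((k1.add n1).add (s1.mul_left Λ)).tsum_add (r1.mul_left (g / 2))]
  refine (pre_summableP hs ht hl hg hψ hkin).tsum_le_tsum (fun p => ?_)
    (((k1.add n1).add (s1.mul_left Λ)).add (r1.mul_left (g / 2)))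
  have h0 : 0 ≤ Λ * ((1 - et t p ^ 2) * nk ψ p) := by
    have := hη2 p
    have h1 := nk_nonneg ψ p
    have h2 : 0 ≤ 1 - et t p ^ 2 := by linarith
    have h3 := hl.nonneg
    positivity
  by_cases hp : p = 0
  · rw [if_pos hp, if_pos hp, if_pos hp]
    have h1 := mul_nonneg (mul_nonneg (sq_nonneg (et t p)) (ksq_nonneg p)) (nk_nonneg ψ p)
    linarith
  · rw [if_neg hp, if_neg hp, if_neg hp]
    have h2 : et t p ^ 2 * φ p * nk ψ p
        ≤ φ p * nk ψ p + Λ * ((1 - et t p ^ 2) * nk ψ p) := by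
      have h3 : 0 ≤ (1 - et t p ^ 2) * nk ψ p :=
        mul_nonneg (by have := hη2 p; linarith) (nk_nonneg ψ p)
      have h4 : -(φ p * ((1 - et t p ^ 2) * nk ψ p)) ≤ Λ * ((1 - et t p ^ 2) * nk ψ p) := by
        rw [← neg_mul]
        exact mul_le_mul_of_nonneg_right ((neg_le_abs _).trans (hl.abs p)) h3
      linarith
    have h4 : et t p ^ 2 * (ksq p + φ p) * nk ψ p
        = et t p ^ 2 * ksq p * nk ψ p + et t p ^ 2 * φ p * nk ψ p := by ring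
    have h5 : g * Real.exp (-(s * ksq p)) / 2 * Rsq t ψ p
        = g / 2 * (Real.exp (-(s * ksq p)) * Rsq t ψ p) := by ring
    rw [h4, h5]
    linarith

/-- The last step: real numbers only. -/
lemma PreC_finalP {Nn H g G t e s Sv al δ₁ LSv cH cK Np QQ QH QK Kin A0 S0 TVv elE C1 C2 X Y RS R0 LO P : ℝ}
    (hN : 0 < Nn) (hg : g = (1 - δ₁) * H) (hG : G = Nn * g) (hH : 0 < H) (hδ0 : 0 ≤ δ₁) (hδ1 : δ₁ ≤ 1)
    (ht : 0 < t) (he : 0 < e) (hs : 0 < s) (hcH : 0 ≤ cH) (hcK : 0 ≤ cK) (hNp : 0 ≤ Np)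
    (hC1 : 0 ≤ C1) (hC2 : 0 ≤ C2) (hX : 0 ≤ X) (hY : 0 ≤ Y) (hel : 0 ≤ elE) (hal : 0 ≤ al)
    (elim1 : Kin + e / t * QQ + (1 - δ₁) / 2 * QH + 1 / 2 * A0 * S0 - C1 * elE ≤ TVv)
    (smo : H * QK - C2 * H * X * Y ≤ QH) (den : RS - Nn * cH ≤ QK)
    (r0 : Nn ^ 2 - 2 * Nn * LO ≤ R0)
    (loss : (G + al) * LO ≤ (G + al) ^ 2 * t / e * Np + e / t * QQ)
    (pre : 1 / 2 * LSv + 1 / 2 * G * cH - 1 / 2 * G - 1 / 2 * G * s * cK
      - 1 / 2 * (Np / Nn) * G * cH - 1 / 2 * (Np / Nn) * (1 / t + al + G) ≤ P)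
    (modes : P ≤ Kin + Sv + al * LO + g / 2 * (RS - R0)) :
    (1 - δ₁) * H / 2 * Nn ^ 2 + 1 / 2 * A0 * S0 + 1 / 2 * LSv - 1 / 2 * (Nn * H)
      - 1 / 2 * (Nn * H) * s * cK - 1 / 2 * (Np / Nn) * (Nn * H) * cH
      - 1 / 2 * (Np / Nn) * (1 / t + al + Nn * H) - (Nn * H + al) ^ 2 * t / e * Np
      - (C1 + C2) * elE - (C1 + C2) * H * X * Y ≤ TVv + Sv := by
  have h := PreC_finalM (lam := 1) (Np := Np) (TVv := TVv + Sv - Np) (Kin := Kin + Sv - Np) (A0 := A0) (S0 := S0)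
    hN hg hG hH hδ0 hδ1 ht he hs hcH hcK hNp hC1 hC2 hX hY hel hal (by linarith) smo den r0 loss pre
    (by linarith)
  linarith

theorem pre8P (hS : SumStatement) : ∃ C : ℝ, 0 ≤ C ∧ ∀ (N : ℕ)
    (t e s H R δ₁ ε₂ ε₃ c c' Λ : ℝ) (φ : (Fin 3 → ℤ) → ℝ) (h k w : T3 → ℝ), 0 < N → 0 < t → t ≤ 1 →
    0 < e → e ≤ 1 / 2 → 0 < s → s ≤ t → 0 < H → SR H R h → 0 ≤ R →
    R ^ 2 ≤ t / 2 → BM k → BM w → (∀ z, 0 ≤ w z) → (∀ z, w z ≤ 2) → 0 ≤ δ₁ → δ₁ ≤ 1 →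
    (∀ z, h z * w z + (1 - δ₁) * h z ≤ 2 * h z - k z) →
    (∀ᵐ z ∂lam3, h z * KK t h z ≤ h z * (2 * w z + ε₂)) →
    (∀ᵐ z ∂lam3, h z * |WT t h z - 2 * w z| ≤ h z * ε₃) → 0 ≤ ε₂ → 0 ≤ ε₃ → 0 < c → 0 < c' →
    SymL Λ φ → ∀ ψ : HS (Fin N), ‖ψ‖ = 1 →
    (∀ j, Summable fun k : Fin N → Fin 3 → ℤ => ksq (k j) * ‖cf ψ k‖ ^ 2) →
    (1 - δ₁) * H / 2 * N ^ 2
      + 1 / 2 * ((∫ z, h z * w z ∂lam3)
          - 1 / 2 * ∑' p, alp t p * ‖fc3 (fun y => (h y : ℂ)) p‖ ^ 2)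
        * (∑ j, ∑ l ∈ Finset.univ.erase j, ‖Phi0 j l ψ‖ ^ 2)
      + 1 / 2 * LSp t φ (N * ((1 - δ₁) * H)) - 1 / 2 * (N * H)
      - 1 / 2 * (N * H) * s * (∑' p : Fin 3 → ℤ, et t p ^ 2 * ksq p)
      - 1 / 2 * ((∑ j, ‖perp j ψ‖ ^ 2) / N) * (N * H) * (∑' p : Fin 3 → ℤ, et t p ^ 2)
      - 1 / 2 * ((∑ j, ‖perp j ψ‖ ^ 2) / N) * (1 / t + Λ + N * H)
      - (N * H + Λ) ^ 2 * t / e * (∑ j, ‖perp j ψ‖ ^ 2)
      - C * elErr N t e H ε₂ ε₃ c (∑ m, cw (8 * t) m (perp m ψ)) (∑ m, cw (8 * t) m (QQ1 t m ψ))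
      - C * H * ((R + Real.sqrt s) / Real.sqrt t)
        * (c' / N * (∑ m, cw (8 * t) m (perp m ψ)) + 1 / c' * ∑ m, qf (crowd (8 * t) m) ψ)
      ≤ TV t h k ψ + ∑' p : Fin 3 → ℤ, if p = 0 then 0 else φ p * nk ψ p := by
  obtain ⟨C1, hC1, elim1⟩ := elim hS
  obtain ⟨C2, hC2, smo1⟩ := smo_sum
  refine ⟨C1 + C2, add_nonneg hC1 hC2, ?_⟩
  intro N t e s H R δ₁ ε₂ ε₃ c c' Λ φ h k w hN ht ht1 he he2 hs hst hH hSR hR hRt hk hw hw0 hw2 hδ0 hδ1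
    hhw hKK hWT hε2 hε3 hc hc' hφ ψ hψ hkin
  have hNR : (0 : ℝ) < N := by exact_mod_cast hN
  have hg0 : 0 ≤ (1 - δ₁) * H := mul_nonneg (by linarith) hH.le
  have hM1 : 0 ≤ ∑ m, cw (8 * t) m (perp m ψ) := Finset.sum_nonneg fun m _ => cw_nonneg _ _ _
  have hM2 : 0 ≤ ∑ m, cw (8 * t) m (QQ1 t m ψ) := Finset.sum_nonneg fun m _ => cw_nonneg _ _ _
  have hCR : 0 ≤ ∑ m, qf (crowd (8 * t) m) ψ :=
    Finset.sum_nonneg fun m _ => qf_nonneg (fun x => crowd_nonneg _ _ _) ψ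
  have el := elim1 N t e H R δ₁ ε₂ ε₃ c h k w hN ht ht1 he he2 hSR hR hRt hk hw hw0 hw2 hhw hKK hWT hε2 hε3
    hc ψ hψ hkin
  have sm := smo1 N s t H R c' h hN hs hst ht1 hSR hR hRt hc' ψ
  have de := (den_ge hs ht ψ hψ).2
  rw [Fintype.card_fin] at de
  have r0 := R0_ge ht.le ψ hψ
  rw [Fintype.card_fin] at r0
  have lo := loss_le (e := e) ht he (add_nonneg (mul_nonneg hNR.le hg0) hφ.nonneg) hψ
  have pr := pre_sumP hN hs ht hφ hg0 hψ hkin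
  have mo := PreC_modesP hs ht hφ hg0 hψ hkin
  exact PreC_finalP hNR rfl rfl hH hδ0 hδ1 ht he hs (tsum_nonneg fun p => sq_nonneg _)
    (tsum_nonneg fun p => mul_nonneg (sq_nonneg _) (ksq_nonneg p))
    (Finset.sum_nonneg fun j _ => sq_nonneg _) hC1 hC2 (by positivity) (by positivity)
    (PreC_elErr_nonneg ht he hH hε2 hε3 hc hM1 hM2) hφ.nonneg el sm de r0 lo pr mo

end Pool.Agent.Lib.MP_4952d6_mp.LB
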