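import Pool.Agent.Lib.MP_4952d6_mp.Pm.M18
import Pool.Agent.Lib.MP_4952d6_mp.Ps.S01

/-!
# Ps.S02: the lower bound of the mesoscopic regime with an arbitrary even symbol
-/

set_option autoImplicit false
set_option linter.unusedSectionVars false
set_option linter.unusedVariables false
open MeasureTheory Function Filter Topology Set ComplexConjugate
open scoped ENNReal

namespace Pool.Agent.Lib.MP_4952d6_mp

namespace M

/-- The number of the particles with momentum `a`. -/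
noncomputable def nF {ι : Type*} [Fintype ι] (ψ : (ι → T3) → ℂ) (a : Fin 3 → ℤ) : ℝ :=
  ∑ j, ∑' K : ι → Fin 3 → ℤ, if K j = a then ‖fc ψ K‖ ^ 2 else 0

/-- **(MLS)** lower bound with the symbol `ksq p + φ p`. -/
def MLSStatement : Prop :=
  ∀ θ CM : ℝ, ∃ C u₀ : ℝ, 0 ≤ C ∧ 0 < u₀ ∧ ∀ u : ℝ, 0 < u → u < u₀ →
    ∀ (N : ℕ) (W f Q : ℝ → ℝ) (R₀ R a : ℝ), Scat W R₀ R a f Q →
      (N : ℝ) * a ^ 3 = u ^ 40 → a ≤ u ^ 20 / 8 → R ≤ θ * a →
      ∀ 𝒱 : T3 → ℝ≥0∞, (∀ᵐ y ∂lam3, ENNReal.ofReal (2 * W (rr y)) ≤ 𝒱 y) →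
      ∀ ψ : (Fin N → T3) → ℂ, tAdm R₀ 𝒱 ψ → LocL CM u ((a / u ^ 16) ^ 2) ψ →
      ∀ (Λ : ℝ) (φ : (Fin 3 → ℤ) → ℝ), LB.SymL Λ φ →
      ENNReal.ofReal (4 * Real.pi * (N * (N - 1)) * a
        + 4 * Real.sqrt Real.pi / u ^ 4 * (N ^ 2 * a * u ^ 20)
        + 1 / 2 * LB.LSp ((a / u ^ 16) ^ 2) φ (8 * Real.pi * (N * a))
        - C * u * (N ^ 2 * a * u ^ 20 + N * a * ∑ i, nuQ (fc ψ) i)
        - ∑' p : Fin 3 → ℤ, if p = 0 then 0 else φ p * nF ψ p) ≤ tE 𝒱 ψ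

end M

namespace LB

/-- The occupation numbers of a function. -/
lemma nk_toLp {N : ℕ} {ψ : (Fin N → T3) → ℂ} (hψ : MemLp ψ 2 (piN (Fin N))) (a : Fin 3 → ℤ) :
    nk (hψ.toLp ψ : HS (Fin N)) a = M.nF ψ a := by
  have h0 : ∀ p : Fin 3 → ℤ, (0 : ℝ) ≤ if p = a then (1 : ℝ) else 0 := fun p => by
    split_ifs <;> norm_num
  have hsum : ∀ j, Summable fun K : Fin N → Fin 3 → ℤ =>
      (if K j = a then (1 : ℝ) else 0) * ‖cf (hψ.toLp ψ : HS (Fin N)) K‖ ^ 2 := by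
    intro j
    refine Summable.of_nonneg_of_le (fun K => mul_nonneg (h0 _) (sq_nonneg _)) (fun K => ?_)
      (hasSum_norm_sq (hψ.toLp ψ : HS (Fin N))).summable
    refine mul_le_of_le_one_left (sq_nonneg _) ?_
    split_ifs <;> norm_num
  obtain ⟨-, h2⟩ := sum_mult (φ := fun p => if p = a then (1 : ℝ) else 0) h0
    (hψ.toLp ψ : HS (Fin N)) hsum
  have h3 : (∑' b, (if b = a then (1 : ℝ) else 0) * nk (hψ.toLp ψ : HS (Fin N)) b)
      = nk (hψ.toLp ψ : HS (Fin N)) a := by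
    rw [tsum_eq_single a (fun b hb => by rw [if_neg hb, zero_mul]), if_pos rfl, one_mul]
  rw [h3] at h2
  rw [← h2]
  unfold M.nF
  refine Finset.sum_congr rfl fun j _ => tsum_congr fun K => ?_
  have h4 : cf (hψ.toLp ψ : HS (Fin N)) K = fc ψ K := cf_toLp hψ K
  rw [h4]
  split_ifs
  · rw [one_mul]
  · rw [zero_mul]

open Pool.Agent.Lib.MP_4952d6_mp.M in
theorem mls_statement : MLSStatement := by
  intro θ CM
  obtain ⟨C8, hC8, h8⟩ := pre8P sum_statement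
  obtain ⟨C6, hC6, h6⟩ := (show C6M from c6M)
  obtain ⟨CA, hCA, hA⟩ := limA
  obtain ⟨cm, hcm⟩ : ∃ cm : ℝ, cm = max CM 0 := ⟨_, rfl⟩
  obtain ⟨th, hth⟩ : ∃ th : ℝ, th = max θ 0 := ⟨_, rfl⟩
  have hM0 : 0 ≤ cm := by rw [hcm]; exact le_max_right _ _
  have hM1 : CM ≤ cm := by rw [hcm]; exact le_max_left _ _
  have hθ0 : 0 ≤ th := by rw [hth]; exact le_max_right _ _
  have hθ1 : θ ≤ th := by rw [hth]; exact le_max_left _ _
  have hpi := Real.pi_pos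
  refine ⟨C8 * LFin_KE C6 cm + LFin_KR C8 C6 CA cm th, min (1 / 2) (1 / (2 * (th + 1))), ?_,
    lt_min (by norm_num) (by positivity), ?_⟩
  · unfold LFin_KE LFin_KR
    positivity
  intro u hu huu0 N W f Q R₀ R a hsc hNa ha8 hRθ 𝒱 h𝒱 ψ hψ hLoc Λ φ hφ
  have hu12 : u ≤ 1 / 2 := huu0.le.trans (min_le_left _ _)
  have hu0d : u ≤ 1 / (2 * (th + 1)) := huu0.le.trans (min_le_right _ _)
  have hu1 : u ≤ 1 := by linarith
  have hpow : ∀ n : ℕ, 1 ≤ n → u ^ n ≤ u := by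
    intro n hn
    calc u ^ n ≤ u ^ 1 := pow_le_pow_of_le_one hu.le hu1 hn
      _ = u := pow_one u
  have ha := hsc.a_pos
  have hR0 : 0 ≤ R := hsc.R_pos.le
  have hRθ' : R ≤ th * a := hRθ.trans (mul_le_mul_of_nonneg_right hθ1 ha.le)
  have hthu : th * u ≤ 1 / 2 := by
    have h3 := hu0d
    rw [le_div_iff₀ (by positivity)] at h3
    linarith
  -- the length `l`
  obtain ⟨l, hl⟩ : ∃ l : ℝ, l = a / u ^ 20 := ⟨_, rfl⟩
  have hl0 : 0 < l := by rw [hl]; positivity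
  have hal : a = l * u ^ 20 := by rw [hl]; field_simp
  have hl8 : l ≤ 1 / 8 := by
    rw [hl, div_le_iff₀ (by positivity)]
    linarith
  have hl1 : l ≤ 1 := by linarith
  have hNl : (N : ℝ) = 1 / (l ^ 3 * u ^ 20) := by
    have h1 : (N : ℝ) * (l * u ^ 20) ^ 3 = u ^ 40 := by rw [← hal]; exact hNa
    have h2 : (N : ℝ) * (l ^ 3 * u ^ 20) * u ^ 40 = 1 * u ^ 40 := by
      rw [one_mul]
      calc (N : ℝ) * (l ^ 3 * u ^ 20) * u ^ 40 = (N : ℝ) * (l * u ^ 20) ^ 3 := by ring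
        _ = u ^ 40 := h1
    rw [eq_div_iff (by positivity)]
    exact mul_right_cancel₀ (by positivity) h2
  have hNpos : (0:ℝ) < N := by rw [hNl]; positivity
  have hNpos' : 0 < N := by exact_mod_cast hNpos
  have hR8 : R ≤ 1 / 8 := by
    have h1 : u ^ 20 ≤ u := hpow 20 (by norm_num)
    calc R ≤ th * a := hRθ'
      _ ≤ th * (u ^ 20 / 8) := mul_le_mul_of_nonneg_left ha8 hθ0
      _ ≤ th * (u / 8) := mul_le_mul_of_nonneg_left (by linarith) hθ0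
      _ = th * u / 8 := by ring
      _ ≤ 1 / 8 := by linarith
  -- time scale
  have hau : a / u ^ 16 = l * u ^ 4 := by
    rw [hal]; field_simp
  obtain ⟨t, htdef⟩ : ∃ t : ℝ, t = (a / u ^ 16) ^ 2 := ⟨_, rfl⟩
  rw [← htdef] at hLoc ⊢
  have htl : t = (l * u ^ 4) ^ 2 := by rw [htdef, hau]
  have ht : 0 < t := by rw [htl]; positivity
  have hst : Real.sqrt t = l * u ^ 4 := by
    rw [htl]; exact Real.sqrt_sq (by positivity)
  have ht1 : t ≤ 1 := by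
    rw [htl]
    have h1 : l * u ^ 4 ≤ 1 * 1 := mul_le_mul hl1 (pow_le_one₀ hu.le hu1) (by positivity) (by norm_num)
    exact pow_le_one₀ (by positivity) (by linarith)
  have hat : a ^ 2 ≤ t := by
    rw [htl, hal]
    have h1 : u ^ 20 ≤ u ^ 4 := pow_le_pow_of_le_one hu.le hu1 (by norm_num)
    have h2 : l * u ^ 20 ≤ l * u ^ 4 := mul_le_mul_of_nonneg_left h1 hl0.le
    exact pow_le_pow_left₀ (by positivity) h2 2
  have hRt : R ^ 2 ≤ t / 2 := by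
    have h1 : u ^ 16 ≤ u := hpow 16 (by norm_num)
    have h2 : R ≤ (l * u ^ 4) * (1 / 2) := by
      calc R ≤ th * a := hRθ'
        _ = th * u ^ 16 * (l * u ^ 4) := by rw [hal]; ring
        _ ≤ th * u * (l * u ^ 4) :=
            mul_le_mul_of_nonneg_right (mul_le_mul_of_nonneg_left h1 hθ0) (by positivity)
        _ ≤ 1 / 2 * (l * u ^ 4) := mul_le_mul_of_nonneg_right hthu (by positivity)
        _ = _ := by ring
    have h5 : R ^ 2 ≤ ((l * u ^ 4) * (1 / 2)) ^ 2 := pow_le_pow_left₀ hR0 h2 2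
    rw [htl]
    have h6 : 0 ≤ (l * u ^ 4) ^ 2 := by positivity
    rw [mul_pow] at h5
    linarith
  have hRt' : R ^ 2 ≤ t := by linarith
  -- charge data
  obtain ⟨h, k, w, hD⟩ := h6 W f Q R₀ R a hsc hR8 (u ^ 40) (by positivity)
  -- the state
  have hnkF : ∀ p, nk (hψ.1.toLp ψ : HS (Fin N)) p = nF ψ p := nk_toLp hψ.1
  obtain ⟨Ψ, hΨ⟩ : ∃ Ψ : HS (Fin N), Ψ = hψ.1.toLp ψ := ⟨_, rfl⟩
  rw [← hΨ] at hnkF
  have hΨ1 : ‖Ψ‖ = 1 := by rw [hΨ]; exact norm_toLp_one hψ.1 hψ.2.1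
  obtain ⟨hL1, hL2, hL3⟩ := loc_cwM ht hψ.1 hLoc
  rw [← hΨ] at hL1 hL2 hL3
  have hdepe : ∑ i, nuQ (fc ψ) i = ∑ j, ‖perp j Ψ‖ ^ 2 := by
    rw [hΨ]
    exact Finset.sum_congr rfl fun i _ => nuQ_toLp hψ.1 i
  rw [hdepe] at hL1 hL2 ⊢
  have hNp0 : 0 ≤ ∑ j, ‖perp j Ψ‖ ^ 2 := Finset.sum_nonneg fun j _ => sq_nonneg _
  have hkin := (kin_sum hψ).1
  rw [← hΨ] at hkin
  -- the lower bound at fixed N
  have hst0 : 0 < Real.sqrt t := Real.sqrt_pos.2 ht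
  have key := h8 N t (u ^ 6) (a ^ 2) (8 * Real.pi * a) R (u ^ 40) (C6 * a * t)
    (C6 * a / Real.sqrt t) (u ^ 6) (u ^ 6)⁻¹ Λ φ h k w hNpos' ht ht1 (by positivity)
    ((hpow 6 (by norm_num)).trans hu12) (by positivity) hat (by positivity) hD.sr hR0 hRt
    hD.k_bm hD.w_bm hD.w_nonneg hD.w_le (by positivity) (pow_le_one₀ hu.le hu1) hD.two
    (hD.p1 t ht ht1 hRt') (hD.p2 t ht ht1 hRt') (by positivity)
    (by positivity) (by positivity) (by positivity) hφ Ψ hΨ1 hkin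
  simp only [hnkF] at key
  obtain ⟨hA1, hA2⟩ := hA t ht ht1
  have hS00 := fin_S00 hΨ1
  have hS2 := S00_ge hΨ1
  have hp3 := hD.p3 t ht ht1 hRt'
  have hM1n : 0 ≤ ∑ m, cw (8 * t) m (perp m Ψ) := Finset.sum_nonneg fun m _ => cw_nonneg _ _ _
  have hM0n : 0 ≤ ∑ m, qf (crowd (8 * t) m) Ψ := Finset.sum_nonneg fun m _ =>
    qf_nonneg (fun x => Finset.sum_nonneg fun j _ => hk_nonneg _ _) _
  have hΛ0 := hφ.nonneg
  -- `Λ`
  have hlamabs : |Λ| ≤ 1 / l ^ 2 := by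
    have h64 : (64 : ℝ) ≤ 1 / l ^ 2 := by
      rw [le_div_iff₀ (by positivity)]
      have : l ^ 2 ≤ (1 / 8) ^ 2 := pow_le_pow_left₀ hl0.le hl8 2
      linarith
    have h2 : 2 * Real.pi ^ 2 ≤ 64 := by
      have h3 : Real.pi ^ 2 ≤ 4 ^ 2 := pow_le_pow_left₀ hpi.le Real.pi_le_four 2
      linarith
    rw [abs_of_nonneg hΛ0]
    exact hφ.le.trans (h2.trans h64)
  have hG : LSp t φ (8 * Real.pi * (N * a)) ≤ LSp t φ (N * ((1 - u ^ 40) * (8 * Real.pi * a))) := by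
    have h40 : 0 ≤ 1 - u ^ 40 := by
      have := pow_le_one₀ (n := 40) hu.le hu1
      linarith
    refine LSp_anti ht hφ (by positivity) ?_
    have h0 : 0 ≤ u ^ 40 * (N * (8 * Real.pi * a)) := by positivity
    linarith
  have hsa : Real.sqrt (a ^ 2) = a := Real.sqrt_sq ha.le
  have hpot := pot_ge ht.le hsc.W_meas hsc.W_nonneg hsc.W_bdd hD.sr.bm
    hD.sr.even hD.k_bm hD.k_nonneg hD.k_even hD.out h𝒱 hψ
  rw [← hΨ] at hpot
  refine le_trans (ENNReal.ofReal_le_ofReal ?_) hpot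
  unfold elErr at key
  have hcm1 : CM * (N:ℝ) ^ 2 ≤ cm * (N:ℝ) ^ 2 :=
    mul_le_mul_of_nonneg_right hM1 (sq_nonneg _)
  change _ ≤ TV t h k Ψ
  generalize (∑' p : Fin 3 → ℤ, if p = 0 then 0 else φ p * nF ψ p) = Sv at *
  generalize TV t h k Ψ = TVv at *
  generalize (∑ j, ∑ l ∈ Finset.univ.erase j, ‖Phi0 j l Ψ‖ ^ 2) = SS at *
  generalize (∫ z, h z * w z ∂lam3)
          - 1 / 2 * ∑' p, alp t p * ‖fc3 (fun y => (h y : ℂ)) p‖ ^ 2 = B0 at *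
  generalize ∑ m, cw (8 * t) m (perp m Ψ) = M1 at *
  generalize ∑ m, cw (8 * t) m (QQ1 t m Ψ) = M2 at *
  generalize ∑ m, qf (crowd (8 * t) m) Ψ = M0 at *
  generalize (∑' p : Fin 3 → ℤ, et t p ^ 2) = A1 at *
  generalize (∑' p : Fin 3 → ℤ, et t p ^ 2 * ksq p) = A2 at *
  generalize LSp t φ (N * ((1 - u ^ 40) * (8 * Real.pi * a))) = LS1 at *
  generalize LSp t φ (8 * Real.pi * (N * a)) = LS2 at *
  generalize ∑ j, ‖perp j Ψ‖ ^ 2 = Np at *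
  have hb0 : 0 ≤ Np / u + u ^ 19 * (N : ℝ) := by positivity
  have hN3 : CM * (N:ℝ) ^ 2 * (Np / u + u ^ 19 * N) ≤ cm * (N:ℝ) ^ 2 * (Np / u + u ^ 19 * N) :=
    mul_le_mul_of_nonneg_right hcm1 hb0
  have hfin := LFin_real (lam := Λ) (TVv := TVv + Sv - Λ * Np) hl0 hl1 hu hu1 hal hNl htl hst hsa hNp0
    hM0 hC6 hC8 hCA hθ0 hR0 hRθ' hM1n hM0n hlamabs (hL1.trans hN3) (hL2.trans hN3) (hL3.trans hcm1)
    hA1 hA2 hp3 hS00.1 hS00.2 hS2 hG (by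
      rw [abs_of_nonneg hΛ0]
      linarith)
  linarith

end LB

end Pool.Agent.Lib.MP_4952d6_mp
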