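import Pool.Agent.Lib.MP_4952d6_mp.Pm.M09
import Pool.Agent.Lib.MP_4952d6_mp.Pm.M14
import Pool.Agent.Lib.MP_4952d6_mp.Ps.S02

/-!
# Ps.S03: the occupation numbers of a ground state on the torus

The sum of `|(n_p + n_{-p}) / 2 - b_p|` over the momenta `p ≠ 0`, `b_p` the occupation number of Bogoliubov's theory.
-/

set_option autoImplicit false
set_option linter.unusedSectionVars false
set_option linter.unusedVariables false
open MeasureTheory Function Filter Topology Set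
open scoped ENNReal

namespace Pool.Agent.Lib.MP_4952d6_mp.LB

open Pool.Agent.Lib.MP_4952d6_mp.M

/-- The inequality for the symbols `φ` with `|φ| ≤ κ`. -/
theorem mxs_core (hL : MLSStatement) (hU : MUStatement) (hV : MVStatement) :
    ∃ M : ℕ, ∀ θ CM : ℝ, ∃ C c₀ : ℝ, 0 ≤ C ∧ 0 < c₀ ∧ ∀ (κ q : ℝ), 0 < κ → 0 < q →
    q ≤ c₀ * κ ^ M →
    ∀ (N : ℕ) (W f Q : ℝ → ℝ) (R₀ R a : ℝ), Scat W R₀ R a f Q →
      (N : ℝ) * a ^ 3 = q ^ 400 → a ≤ q ^ 200 / 8 → κ ≤ lq q a ^ 2 → R ≤ θ * a →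
      ∀ 𝒱 𝒱₂ : T3 → ℝ≥0∞, Measurable 𝒱₂ →
      (∀ᵐ y ∂lam3, ENNReal.ofReal (2 * W (rr y)) ≤ 𝒱 y) →
      (∀ᵐ y ∂lam3, 𝒱 y ≤ ENNReal.ofReal (2 * W (rr y)) + 𝒱₂ y) →
      ∫⁻ y, 𝒱₂ y ∂lam3 ≤ ENNReal.ofReal (a * q ^ 201) →
      ∀ ψ : (Fin N → T3) → ℂ, tAdm R₀ 𝒱 ψ →
      (∀ φ : (Fin N → T3) → ℂ, tAdm R₀ 𝒱 φ → tE 𝒱 ψ ≤ tE 𝒱 φ) →
      LocL CM (q ^ 10) ((a / q ^ 160) ^ 2) ψ → ∀ g : (Fin 3 → ℤ) → ℝ, SymL κ g →
      1 / 2 * LSp (lq q a ^ 2 * q ^ 80) g (8 * Real.pi / lq q a ^ 2)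
          - C * q * (1 / lq q a ^ 5 + 1 / lq q a ^ 2 * ∑ i, nuQ (fc ψ) i)
          - ∑' p : Fin 3 → ℤ, (if p = 0 then 0 else g p * nF ψ p)
        ≤ 1 / 2 * LS (lq q a ^ 2 * q ^ 80) 0 (8 * Real.pi / lq q a ^ 2)
          + 1 / lq q a ^ 5 * (C * (κ ^ 3 + q)) := by
  obtain ⟨MU, hU⟩ := hU
  obtain ⟨MV, CV, cV, hCV, hcV, hV⟩ := hV
  refine ⟨MU + MV + 2, fun θ CM => ?_⟩
  obtain ⟨CL, u₀, hCL, hu₀, hL⟩ := hL θ CM
  obtain ⟨cU, hcU, hU⟩ := hU θ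
  obtain ⟨CA, hCA, hA⟩ := limA
  set c₀ : ℝ := min (min (min cU cV) (min (u₀ / 2) (1 / 2)))
    (min (1 / (2 * (CL + 1))) (1 / (2 * (CA + 1)))) with hc₀d
  have hc₀ : 0 < c₀ := by
    rw [hc₀d]
    exact lt_min (lt_min (lt_min hcU hcV) (lt_min (by positivity) (by norm_num)))
      (lt_min (by positivity) (by positivity))
  have c1 : c₀ ≤ cU := (min_le_left _ _).trans ((min_le_left _ _).trans (min_le_left _ _))
  have c2 : c₀ ≤ cV := (min_le_left _ _).trans ((min_le_left _ _).trans (min_le_right _ _))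
  have c3 : c₀ ≤ u₀ / 2 := (min_le_left _ _).trans ((min_le_right _ _).trans (min_le_left _ _))
  have c4 : c₀ ≤ 1 / 2 := (min_le_left _ _).trans ((min_le_right _ _).trans (min_le_right _ _))
  have c5 : c₀ ≤ 1 / (2 * (CL + 1)) := (min_le_right _ _).trans (min_le_left _ _)
  have c6 : c₀ ≤ 1 / (2 * (CA + 1)) := (min_le_right _ _).trans (min_le_right _ _)
  refine ⟨CL + CV + 2, c₀, by positivity, hc₀, ?_⟩
  intro κ q hκ hq hqκ N W f Q R₀ R a hsc hN ha8 hκl hR 𝒱 𝒱₂ hm₂ hV1 hV2 hζ ψ hψ hmin hloc g hg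
  have hpi := Real.pi_pos
  have ha : 0 < a := hsc.a_pos
  obtain ⟨l, hl⟩ : ∃ l : ℝ, l = lq q a := ⟨_, rfl⟩
  have hlq : l = a / q ^ 200 := hl
  rw [← hl] at hκl ⊢
  have hl0 : 0 < l := by rw [hlq]; positivity
  have hl8 : l ≤ 1 / 8 := by
    rw [hlq, div_le_iff₀ (by positivity)]
    linarith
  have hκ64 : κ ≤ 1 / 64 := by
    refine hκl.trans ?_
    calc l ^ 2 ≤ (1 / 8) ^ 2 := pow_le_pow_left₀ hl0.le hl8 2
      _ = 1 / 64 := by norm_num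
  have hκ1 : κ ≤ 1 := by linarith
  have hpow : ∀ k n : ℕ, k ≤ n → κ ^ n ≤ κ ^ k := fun k n h =>
    pow_le_pow_of_le_one hκ.le hκ1 h
  have hqU : q ≤ cU * κ ^ MU :=
    hqκ.trans (mul_le_mul c1 (hpow _ _ (by omega)) (by positivity) hcU.le)
  have hqV : q ≤ cV * κ ^ MV :=
    hqκ.trans (mul_le_mul c2 (hpow _ _ (by omega)) (by positivity) hcV.le)
  have hq2 : q ≤ c₀ * κ ^ 2 :=
    hqκ.trans (mul_le_mul_of_nonneg_left (hpow _ _ (by omega)) hc₀.le)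
  have hqc : q ≤ c₀ := by
    refine hq2.trans (mul_le_of_le_one_right hc₀.le (pow_le_one₀ hκ.le hκ1))
  have hq12 : q ≤ 1 / 2 := hqc.trans c4
  have hq1 : q ≤ 1 := by linarith
  have hη : q / κ ^ 2 ≤ c₀ := by rwa [div_le_iff₀ (by positivity)]
  -- the parameter `u`
  obtain ⟨u, hu⟩ : ∃ u : ℝ, u = q ^ 10 := ⟨_, rfl⟩
  have hu0 : 0 < u := by rw [hu]; positivity
  have huq : u ≤ q := by
    rw [hu]
    calc q ^ 10 = q * q ^ 9 := by ring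
      _ ≤ q * 1 := mul_le_mul_of_nonneg_left (pow_le_one₀ hq.le hq1) hq.le
      _ = q := mul_one _
  have huu : u < u₀ := by linarith
  have hu1 : u ≤ 1 := by linarith
  have hu20 : u ^ 20 = q ^ 200 := by rw [hu]; ring
  have hu40 : u ^ 40 = q ^ 400 := by rw [hu]; ring
  have hu16 : u ^ 16 = q ^ 160 := by rw [hu]; ring
  have hal : a = l * u ^ 20 := by rw [hlq, hu20]; field_simp
  have hNl : (N : ℝ) = 1 / (l ^ 3 * u ^ 20) := by
    have h1 : (N : ℝ) * (l * u ^ 20) ^ 3 = u ^ 40 := by rw [← hal, hu40]; exact hN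
    have h2 : (N : ℝ) * (l ^ 3 * u ^ 20) * u ^ 40 = 1 * u ^ 40 := by
      rw [one_mul]
      calc (N : ℝ) * (l ^ 3 * u ^ 20) * u ^ 40 = (N : ℝ) * (l * u ^ 20) ^ 3 := by ring
        _ = u ^ 40 := h1
    rw [eq_div_iff (by positivity)]
    exact mul_right_cancel₀ (by positivity) h2
  have hNpos : (0:ℝ) < N := by rw [hNl]; positivity
  have hN2 : (2:ℝ) ≤ N := by
    rw [hNl, le_div_iff₀ (by positivity)]
    have h1 : l ^ 3 ≤ 1 / 512 := by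
      calc l ^ 3 ≤ (1 / 8) ^ 3 := pow_le_pow_left₀ hl0.le hl8 3
        _ = 1 / 512 := by norm_num
    have h2 : u ^ 20 ≤ 1 := pow_le_one₀ hu0.le hu1
    have h3 : l ^ 3 * u ^ 20 ≤ 1 / 512 * 1 := mul_le_mul h1 h2 (by positivity) (by norm_num)
    linarith
  have hNa : (N : ℝ) * a = 1 / l ^ 2 := by
    rw [hNl, hal]; field_simp
  have hX : (N : ℝ) ^ 2 * a * u ^ 20 = 1 / l ^ 5 := by
    rw [hNl, hal]; field_simp
  have hG : 8 * Real.pi * (N * a) = 8 * Real.pi / l ^ 2 := by rw [hNa]; ring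
  -- time scale
  obtain ⟨t, ht⟩ : ∃ t : ℝ, t = (a / u ^ 16) ^ 2 := ⟨_, rfl⟩
  have hau : a / u ^ 16 = l * u ^ 4 := by
    rw [hal]; field_simp
  have htl : t = l ^ 2 * q ^ 80 := by
    rw [ht, hau, hu]; ring
  have ht0 : 0 < t := by rw [htl]; positivity
  have hst : Real.sqrt t = l * u ^ 4 := by
    rw [ht, hau, Real.sqrt_sq (by positivity)]
  have ht1 : t ≤ 1 := by
    rw [htl]
    have h1 : l ^ 2 ≤ 1 := pow_le_one₀ hl0.le (by linarith)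
    have h2 : q ^ 80 ≤ 1 := pow_le_one₀ hq.le hq1
    calc l ^ 2 * q ^ 80 ≤ 1 * 1 := mul_le_mul h1 h2 (by positivity) (by norm_num)
      _ = 1 := one_mul _
  set D : ℝ := ∑ i, nuQ (fc ψ) i with hD
  have hD0 : 0 ≤ D := Finset.sum_nonneg fun i _ => nuQ_nonneg _ _
  -- upper bound of the energy
  obtain ⟨φ, hφ, hφE⟩ := hU κ q hκ hq hqU N W f Q R₀ R a hsc hN ha8 (by rw [← hl]; exact hκl) hR
    𝒱 𝒱₂ hm₂ hV2 (a * q ^ 201) (by positivity) hζ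
  have hMV := hV κ q l hκ hq hqV hl0 hl8 hκl
  rw [← hl] at hφE
  set P : ℝ := 4 * Real.pi * (N * (N - 1)) * a
    + 4 * Real.sqrt Real.pi / u ^ 4 * (N ^ 2 * a * u ^ 20) with hP
  set LS0 : ℝ := LS t 0 (8 * Real.pi / l ^ 2) with hLS0
  set Xi : ℝ := 1 / l ^ 5 with hXi
  have hXi0 : 0 < Xi := by positivity
  have hB : tE 𝒱 φ ≤ ENNReal.ofReal (P + (1 / 2 * LS0 + Xi * (CV * (κ ^ 3 + q) + 2 * q))) := by
    refine hφE.trans (ENNReal.ofReal_le_ofReal ?_)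
    rw [← htl, ← hLS0] at hMV
    have e1 : (N : ℝ) ^ 2 * a * q ^ 200 = Xi := by rw [← hu20, hX]
    have e2 : (N : ℝ) ^ 2 * (a * q ^ 201) = Xi * q := by
      rw [← e1]; ring
    have e3 : u ^ 4 = q ^ 40 := by rw [hu]; ring
    rw [e1, e2, hP, hX, e3]
    have h1 := mul_le_mul_of_nonneg_left hMV hXi0.le
    have h2 : Xi * (1 / 2 * l ^ 5 * LS0) = 1 / 2 * LS0 := by
      rw [hXi]; field_simp
    have h3 : Xi * (4 * Real.sqrt Real.pi / q ^ 40 + 1 / 2 * l ^ 5 * LS0 + CV * (κ ^ 3 + q))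
        = 4 * Real.sqrt Real.pi / q ^ 40 * Xi + Xi * (1 / 2 * l ^ 5 * LS0)
          + Xi * (CV * (κ ^ 3 + q)) := by ring
    rw [h3, h2] at h1
    linarith
  -- positivity
  have hpos : 0 ≤ P + (1 / 2 * LS0 + Xi * (CV * (κ ^ 3 + q) + 2 * q)) := by
    have h1 := X_LS_ge ht0 (show 0 ≤ 8 * Real.pi / l ^ 2 by positivity)
    obtain ⟨hA1, -⟩ := hA t ht0 ht1
    have h2 : 8 * Real.pi / l ^ 2 * (∑' p : Fin 3 → ℤ, et t p ^ 2)
        ≤ 8 * Real.pi / l ^ 2 * (CA * (Real.sqrt t)⁻¹ ^ 3) :=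
      mul_le_mul_of_nonneg_left hA1 (by positivity)
    have h3 : 8 * Real.pi / l ^ 2 * (CA * (Real.sqrt t)⁻¹ ^ 3)
        = 8 * Real.pi * CA * (N ^ 2 * a) * u ^ 8 := by
      rw [hst]
      have e1 : (N : ℝ) ^ 2 * a = Xi / u ^ 20 := by
        rw [← hX]; field_simp
      rw [e1, hXi, inv_pow]
      field_simp
    have h4 : CA * u ^ 8 ≤ 1 / 2 := by
      have e1 : u ^ 8 ≤ u := by
        calc u ^ 8 = u * u ^ 7 := by ring
          _ ≤ u * 1 := mul_le_mul_of_nonneg_left (pow_le_one₀ hu0.le hu1) hu0.le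
          _ = u := mul_one _
      have e2 : u ^ 8 ≤ 1 / (2 * (CA + 1)) := by linarith
      calc CA * u ^ 8 ≤ (CA + 1) * (1 / (2 * (CA + 1))) :=
            mul_le_mul (by linarith) e2 (by positivity) (by positivity)
        _ = 1 / 2 := by field_simp
    have h5 : 0 ≤ Real.pi * (N ^ 2 * a) := by positivity
    have h6 : 8 * Real.pi * CA * (N ^ 2 * a) * u ^ 8 ≤ 4 * (Real.pi * (N ^ 2 * a)) := by
      calc 8 * Real.pi * CA * (N ^ 2 * a) * u ^ 8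
          = 8 * (Real.pi * (N ^ 2 * a)) * (CA * u ^ 8) := by ring
        _ ≤ 8 * (Real.pi * (N ^ 2 * a)) * (1 / 2) := mul_le_mul_of_nonneg_left h4 (by positivity)
        _ = _ := by ring
    have h7 : 2 * (Real.pi * ((N : ℝ) ^ 2 * a)) ≤ 4 * Real.pi * (N * (N - 1)) * a := by
      have e1 : 0 ≤ Real.pi * a * (N * (N - 2)) :=
        mul_nonneg (by positivity) (mul_nonneg hNpos.le (by linarith))
      nlinarith only [e1]
    have h8 : 0 ≤ 4 * Real.sqrt Real.pi / u ^ 4 * ((N : ℝ) ^ 2 * a * u ^ 20) := by positivity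
    have h9 : 0 ≤ Xi * (CV * (κ ^ 3 + q) + 2 * q) := by positivity
    rw [hP]
    linarith
  -- the two inequalities
  have hloc' : LocL CM u ((a / u ^ 16) ^ 2) ψ := by rw [hu16, hu]; exact hloc
  have h3 := hL u hu0 huu N W f Q R₀ R a hsc (by rw [hu40]; exact hN) (by rw [hu20]; exact ha8)
    hR 𝒱 hV1 ψ hψ hloc' κ g hg
  have h4 := h3.trans ((hmin φ hφ).trans hB)
  rw [ENNReal.ofReal_le_ofReal_iff hpos, hG, hNa, ← ht, ← hD] at h4
  rw [hP, hX] at h4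
  rw [← htl]
  have h5 : CL * u * (Xi + 1 / l ^ 2 * D) ≤ (CL + CV + 2) * q * (Xi + 1 / l ^ 2 * D) := by
    refine mul_le_mul_of_nonneg_right ?_ (by positivity)
    exact mul_le_mul (by linarith) huq hu0.le (by positivity)
  have h6 : Xi * (CV * (κ ^ 3 + q) + 2 * q) ≤ Xi * ((CL + CV + 2) * (κ ^ 3 + q)) := by
    refine mul_le_mul_of_nonneg_left ?_ hXi0.le
    have h7 : 0 ≤ κ ^ 3 := by positivity
    have h8 : 0 ≤ CL * (κ ^ 3 + q) := mul_nonneg hCL (by linarith)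
    nlinarith only [h7, h8, hq]
  linarith only [h4, h5, h6]

end Pool.Agent.Lib.MP_4952d6_mp.LB
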