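import Pool.Agent.Lib.MP_4952d6_mp.Ps.S03

/-!
# Ps.S04: the occupation numbers of a ground state on the torus, conclusion
-/

set_option autoImplicit false
set_option linter.unusedSectionVars false
set_option linter.unusedVariables false
open MeasureTheory Function Filter Topology Set
open scoped ENNReal

namespace Pool.Agent.Lib.MP_4952d6_mp

namespace M

/-- The deviation of the occupation numbers of `±p` from those of Bogoliubov's theory. -/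
noncomputable def dev {ι : Type*} [Fintype ι] (l : ℝ) (ψ : (ι → T3) → ℂ) (p : Fin 3 → ℤ) : ℝ :=
  if p = 0 then 0 else |(nF ψ p + nF ψ (-p)) / 2 - 1 / 2 * Jgd (l ^ 2 * ksq p)|

/-- **(MXS)** the occupation numbers of a ground state on the torus. -/
def MXSStatement : Prop :=
  ∃ M : ℕ, ∀ θ CM : ℝ, ∃ C c₀ : ℝ, 0 ≤ C ∧ 0 < c₀ ∧ ∀ (κ q : ℝ), 0 < κ → 0 < q →
    q ≤ c₀ * κ ^ M →
    ∀ (N : ℕ) (W f Q : ℝ → ℝ) (R₀ R a : ℝ), Scat W R₀ R a f Q →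
      (N : ℝ) * a ^ 3 = q ^ 400 → a ≤ q ^ 200 / 8 → κ ≤ lq q a ^ 2 → R ≤ θ * a →
      ∀ 𝒱 𝒱₂ : T3 → ℝ≥0∞, Measurable 𝒱₂ →
      (∀ᵐ y ∂lam3, ENNReal.ofReal (2 * W (rr y)) ≤ 𝒱 y) →
      (∀ᵐ y ∂lam3, 𝒱 y ≤ ENNReal.ofReal (2 * W (rr y)) + 𝒱₂ y) →
      ∫⁻ y, 𝒱₂ y ∂lam3 ≤ ENNReal.ofReal (a * q ^ 201) →
      (∃ φ : (Fin N → T3) → ℂ, tAdm R₀ 𝒱 φ) ∧
      ∀ ψ : (Fin N → T3) → ℂ, tAdm R₀ 𝒱 ψ →
      (∀ φ : (Fin N → T3) → ℂ, tAdm R₀ 𝒱 φ → tE 𝒱 ψ ≤ tE 𝒱 φ) →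
      LocL CM (q ^ 10) ((a / q ^ 160) ^ 2) ψ →
      |lq q a ^ 3 * (∑ i, nuQ (fc ψ) i) - sl (lq q a)| ≤ C * (Real.sqrt κ + q / κ ^ 3) ∧
      Summable (dev (lq q a) ψ) ∧
      lq q a ^ 3 * (∑' p, dev (lq q a) ψ p) ≤ C * (Real.sqrt κ + q / κ ^ 3)

end M

namespace LB

open Pool.Agent.Lib.MP_4952d6_mp.M

lemma S_et_le_one {t : ℝ} (ht : 0 < t) (p : Fin 3 → ℤ) : et t p ^ 2 ≤ 1 := by
  rw [Mul_et_sq, Real.exp_le_one_iff]
  have := mul_nonneg ht.le (ksq_nonneg p)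
  linarith

lemma S_J_pos {l : ℝ} (hl : 0 < l) {p : Fin 3 → ℤ} (hp : p ≠ 0) : 0 < Jgd (l ^ 2 * ksq p) :=
  Jgd_pos (mul_pos (by positivity) (by have := X_ksq_ge_one hp; linarith))

/-- summability of the sums with signs -/
lemma S_summable {l : ℝ} (hl : 0 < l) {c : (Fin 3 → ℤ) → ℝ} (hc : ∀ p, |c p| ≤ 1) :
    Summable fun p : Fin 3 → ℤ => if p = 0 then 0 else c p * Jgd (l ^ 2 * ksq p) := by
  refine Summable.of_norm_bounded (X_summable hl) fun p => ?_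
  split_ifs with hp
  · rw [norm_zero]
  · have h1 := (S_J_pos hl hp).le
    rw [Real.norm_eq_abs, abs_mul, abs_of_nonneg h1]
    exact mul_le_of_le_one_left h1 (hc p)

/-- comparison of the lattice sums, with signs -/
theorem X_LSp_ge {t l κ : ℝ} {σ : (Fin 3 → ℤ) → ℝ} (ht : 0 < t) (hl : 0 < l) (hκ : 0 < κ)
    (hκ4 : κ ≤ 1 / 4) (hσ : ∀ p, σ p = 1 ∨ σ p = -1) (hg : SymL κ fun p => -(κ * σ p)) :
    LS t 0 (8 * Real.pi / l ^ 2) - LSp t (fun p => -(κ * σ p)) (8 * Real.pi / l ^ 2)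
      ≤ κ * (∑' p : Fin 3 → ℤ, if p = 0 then 0 else σ p * et t p ^ 2 * Jgd (l ^ 2 * ksq p))
        + 4 * κ ^ 2 * SLS l := by
  have hpi := Real.pi_pos
  have hG : 0 ≤ 8 * Real.pi / l ^ 2 := by positivity
  have hl0 : -(2 * Real.pi ^ 2) ≤ (0:ℝ) := by nlinarith [sq_nonneg Real.pi]
  have s1 := summable_LSM ht hl0 hG
  have s2 := summable_LSp ht hg hG
  have hc : ∀ p, |σ p * et t p ^ 2| ≤ 1 := by
    intro p
    have h1 := S_et_le_one ht p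
    have h2 := sq_nonneg (et t p)
    rw [abs_mul, abs_of_nonneg h2]
    rcases hσ p with h | h
    · rw [h, abs_one, one_mul]; exact h1
    · rw [h, abs_neg, abs_one, one_mul]; exact h1
  have s3 := S_summable hl hc
  have s4 := X_summable hl
  unfold LS LSp
  rw [← s1.tsum_sub s2, X_SLS hl, ← tsum_mul_left, ← tsum_mul_left,
    ← (s3.mul_left κ).tsum_add (s4.mul_left (4 * κ ^ 2))]
  refine (s1.sub s2).tsum_le_tsum (fun p => ?_) ((s3.mul_left κ).add (s4.mul_left (4 * κ ^ 2)))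
  by_cases hp : p = 0
  · simp [hp]
  · simp only [if_neg hp]
    have hk := X_ksq_ge_one hp
    have he0 := sq_nonneg (et t p)
    have he1 := S_et_le_one ht p
    have hJ := (S_J_pos hl hp).le
    rw [add_zero]
    have e0 : et t p ^ 2 * (epsf (8 * Real.pi / l ^ 2) (ksq p) - ksq p - 8 * Real.pi / l ^ 2)
          - et t p ^ 2 * (epsf (8 * Real.pi / l ^ 2) (ksq p + -(κ * σ p)) - (ksq p + -(κ * σ p))
            - 8 * Real.pi / l ^ 2)
        = et t p ^ 2 * ((epsf (8 * Real.pi / l ^ 2) (ksq p) - ksq p - 8 * Real.pi / l ^ 2)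
          - (epsf (8 * Real.pi / l ^ 2) (ksq p + -(κ * σ p)) - (ksq p + -(κ * σ p))
            - 8 * Real.pi / l ^ 2)) := by
      ring
    rw [e0]
    have hJ2 : 4 * κ ^ 2 * (et t p ^ 2 * Jgd (l ^ 2 * ksq p)) ≤ 4 * κ ^ 2 * Jgd (l ^ 2 * ksq p) :=
      mul_le_mul_of_nonneg_left (mul_le_of_le_one_left hJ he1) (by positivity)
    rcases hσ p with h | h
    · rw [h, mul_one, ← sub_eq_add_neg, one_mul]
      have h1 := X_up1 hl hκ.le (show κ < ksq p by linarith)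
      have h2 := X_up2 hl hκ.le hκ4 hk
      have h3 : et t p ^ 2 * ((epsf (8 * Real.pi / l ^ 2) (ksq p) - ksq p - 8 * Real.pi / l ^ 2)
          - (epsf (8 * Real.pi / l ^ 2) (ksq p - κ) - (ksq p - κ) - 8 * Real.pi / l ^ 2))
          ≤ et t p ^ 2 * (κ * ((1 + 4 * κ) * Jgd (l ^ 2 * ksq p))) :=
        mul_le_mul_of_nonneg_left (h1.trans (mul_le_mul_of_nonneg_left h2 hκ.le)) he0
      nlinarith only [h3, hJ2]
    · rw [h]
      have e1 : ksq p + -(κ * -1) = ksq p + κ := by ring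
      rw [e1]
      have h1 := X_lo1 hl hκ (ksq_nonneg p)
      have h2 := X_lo2 hl hκ.le hk
      have h3 : et t p ^ 2 * ((epsf (8 * Real.pi / l ^ 2) (ksq p) - ksq p - 8 * Real.pi / l ^ 2)
          - (epsf (8 * Real.pi / l ^ 2) (ksq p + κ) - (ksq p + κ) - 8 * Real.pi / l ^ 2))
          ≤ et t p ^ 2 * (-(κ * ((1 - 2 * κ) * Jgd (l ^ 2 * ksq p)))) := by
        refine mul_le_mul_of_nonneg_left ?_ he0
        have h4 := mul_le_mul_of_nonneg_left h2 hκ.le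
        linarith
      have h5 : 0 ≤ κ ^ 2 * (et t p ^ 2 * Jgd (l ^ 2 * ksq p)) := by positivity
      nlinarith only [h3, hJ2, h5]

/-- real arithmetic -/
lemma S_real {κ l q C D S1 S2 S3 LS0 LS1 SL cut CC Cb Cd : ℝ} (hκ : 0 < κ) (hl : 0 < l) (hq : 0 < q)
    (hC : 0 ≤ C) (hD : 0 ≤ D) (hκl : κ ≤ l ^ 2)
    (h1 : 1 / 2 * LS1 - C * q * (1 / l ^ 5 + 1 / l ^ 2 * D) + κ * S1
      ≤ 1 / 2 * LS0 + 1 / l ^ 5 * (C * (κ ^ 3 + q)))
    (h2 : LS0 - LS1 ≤ κ * S3 + 4 * κ ^ 2 * SL) (h3 : S3 ≤ S2 + cut) (h4 : l ^ 3 * cut ≤ CC * q)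
    (h5 : 1 / 2 * (l ^ 3 * SL) ≤ Cb) (h6 : l ^ 3 * D ≤ Cd) :
    l ^ 3 * (S1 - 1 / 2 * S2)
      ≤ 1 / 2 * CC * q + 4 * Cb * κ + C * κ + (C * (1 + Cd) + C) * (q / κ ^ 2) := by
  have hl3 : 0 < l ^ 3 := by positivity
  have hd0 : 0 ≤ l ^ 3 * D := by positivity
  have hwk : 1 / l ^ 2 ≤ 1 / κ := one_div_le_one_div_of_le hκ hκl
  have a1 : κ * S1 ≤ 1 / 2 * (κ * (S2 + cut) + 4 * κ ^ 2 * SL)
      + C * q * (1 / l ^ 5 + 1 / l ^ 2 * D) + 1 / l ^ 5 * (C * (κ ^ 3 + q)) := by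
    have a2 := mul_le_mul_of_nonneg_left h3 hκ.le
    linarith
  have a3 := mul_le_mul_of_nonneg_left a1 hl3.le
  have a4 : l ^ 3 * (1 / 2 * (κ * (S2 + cut) + 4 * κ ^ 2 * SL)
      + C * q * (1 / l ^ 5 + 1 / l ^ 2 * D) + 1 / l ^ 5 * (C * (κ ^ 3 + q)))
      = 1 / 2 * κ * (l ^ 3 * S2) + 1 / 2 * κ * (l ^ 3 * cut) + 2 * κ ^ 2 * (l ^ 3 * SL)
        + 1 / l ^ 2 * (C * q * (1 + l ^ 3 * D) + C * (κ ^ 3 + q)) := by
    field_simp
    ring
  rw [a4] at a3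
  have a5 : 1 / 2 * κ * (l ^ 3 * cut) ≤ 1 / 2 * κ * (CC * q) :=
    mul_le_mul_of_nonneg_left h4 (by positivity)
  have a6 : 2 * κ ^ 2 * (l ^ 3 * SL) ≤ 4 * κ ^ 2 * Cb := by
    have := mul_le_mul_of_nonneg_left h5 (show 0 ≤ 4 * κ ^ 2 by positivity)
    linarith
  have a7 : 1 / l ^ 2 * (C * q * (1 + l ^ 3 * D) + C * (κ ^ 3 + q))
      ≤ 1 / κ * (C * q * (1 + Cd) + C * (κ ^ 3 + q)) := by
    have b1 : C * q * (1 + l ^ 3 * D) + C * (κ ^ 3 + q) ≤ C * q * (1 + Cd) + C * (κ ^ 3 + q) := by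
      have := mul_le_mul_of_nonneg_left h6 (show 0 ≤ C * q by positivity)
      linarith
    exact mul_le_mul hwk b1 (by positivity) (by positivity)
  have a8 : κ * (l ^ 3 * (S1 - 1 / 2 * S2))
      ≤ κ * (1 / 2 * CC * q + 4 * Cb * κ + C * κ + (C * (1 + Cd) + C) * (q / κ ^ 2)) := by
    have e1 : κ * (1 / 2 * CC * q + 4 * Cb * κ + C * κ + (C * (1 + Cd) + C) * (q / κ ^ 2))
        = 1 / 2 * κ * (CC * q) + 4 * κ ^ 2 * Cb + 1 / κ * (C * q * (1 + Cd) + C * (κ ^ 3 + q)) := by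
      field_simp
      ring
    rw [e1]
    linarith only [a3, a5, a6, a7]
  exact le_of_mul_le_mul_left a8 hκ

/-- The occupation numbers are summable. -/
lemma S_nF {N : ℕ} {ψ : (Fin N → T3) → ℂ} (hψ : MemLp ψ 2 (piN (Fin N))) :
    (∀ p, 0 ≤ nF ψ p) ∧ Summable (nF ψ) := by
  have e : nF ψ = nk (hψ.toLp ψ : HS (Fin N)) := funext fun p => (nk_toLp hψ p).symm
  rw [e]
  exact ⟨fun p => nk_nonneg _ p, summable_nk _⟩

theorem mxs_final (hL : MLSStatement) (hU : MUStatement) (hV : MVStatement) (hX : MXEStatement) :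
    MXSStatement := by
  obtain ⟨M₁, hcore⟩ := mxs_core hL hU hV
  obtain ⟨M₂, hX⟩ := hX
  refine ⟨M₁ + M₂ + 3, fun θ CM => ?_⟩
  obtain ⟨C₁, c₁, hC₁, hc₁, hcore⟩ := hcore θ CM
  obtain ⟨C₂, c₂, hC₂, hc₂, hX⟩ := hX θ CM
  obtain ⟨CC, hCC, hcut⟩ := X_cut
  obtain ⟨Cb, hCb, hsb⟩ := sl_bdd
  set Cd : ℝ := Cb + 2 * C₂ with hCd
  have hCd0 : 0 ≤ Cd := by positivity
  refine ⟨C₂ + (1 / 2 * CC + 4 * Cb + C₁ + (C₁ * (1 + Cd) + C₁)), min (min c₁ c₂) 1, by positivity,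
    lt_min (lt_min hc₁ hc₂) one_pos, ?_⟩
  intro κ q hκ hq hqκ N W f Q R₀ R a hsc hN ha8 hκl hR 𝒱 𝒱₂ hm hV1 hV2 hζ
  have ha : 0 < a := hsc.a_pos
  have hlp : 0 < lq q a := by unfold lq; positivity
  have hl8 : lq q a ≤ 1 / 8 := by
    unfold lq
    rw [div_le_iff₀ (by positivity)]
    linarith
  have hκ64 : κ ≤ 1 / 64 := by
    refine hκl.trans ?_
    calc lq q a ^ 2 ≤ (1 / 8) ^ 2 := pow_le_pow_left₀ hlp.le hl8 2
      _ = 1 / 64 := by norm_num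
  have hκ1 : κ ≤ 1 := by linarith
  have hpow : ∀ k n : ℕ, k ≤ n → κ ^ n ≤ κ ^ k := fun k n h =>
    pow_le_pow_of_le_one hκ.le hκ1 h
  have hq₁ : q ≤ c₁ * κ ^ M₁ :=
    hqκ.trans (mul_le_mul ((min_le_left _ _).trans (min_le_left _ _)) (hpow _ _ (by omega))
      (by positivity) hc₁.le)
  have hq₂ : q ≤ c₂ * κ ^ M₂ :=
    hqκ.trans (mul_le_mul ((min_le_left _ _).trans (min_le_right _ _)) (hpow _ _ (by omega))
      (by positivity) hc₂.le)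
  have hq₃ : q ≤ 1 * κ ^ 3 :=
    hqκ.trans (mul_le_mul (min_le_right _ _) (hpow _ _ (by omega)) (by positivity) zero_le_one)
  have hq3 : q / κ ^ 3 ≤ 1 := by rwa [div_le_iff₀ (by positivity)]
  obtain ⟨hex, hXψ⟩ := hX κ q hκ hq hq₂ N W f Q R₀ R a hsc hN ha8 hκl hR 𝒱 𝒱₂ hm hV1 hV2 hζ
  refine ⟨hex, fun ψ hψ hmin hloc => ?_⟩
  have hmain := hXψ ψ hψ hmin hloc
  have hcore' := hcore κ q hκ hq hq₁ N W f Q R₀ R a hsc hN ha8 hκl hR 𝒱 𝒱₂ hm hV1 hV2 hζ ψ hψ hmin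
    hloc
  obtain ⟨hn0, hns⟩ := S_nF hψ.1
  set l : ℝ := lq q a with hl
  set D : ℝ := ∑ i, nuQ (fc ψ) i with hD
  have hD0 : 0 ≤ D := Finset.sum_nonneg fun i _ => nuQ_nonneg _ _
  have hsκ : Real.sqrt κ ≤ 1 := Real.sqrt_le_one.mpr hκ1
  have hsκ0 := Real.sqrt_nonneg κ
  have hE0 : 0 ≤ Real.sqrt κ + q / κ ^ 3 := by positivity
  have hsl0 := sl_nonneg hlp
  have hslb := hsb l hlp
  -- the bound of the number of the excitations
  have hd : l ^ 3 * D ≤ Cd := by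
    have h1 := (abs_le.1 hmain).2
    have h2 : C₂ * (Real.sqrt κ + q / κ ^ 3) ≤ C₂ * 2 :=
      mul_le_mul_of_nonneg_left (by linarith) hC₂
    rw [hCd]
    linarith
  -- the signs
  set σ : (Fin 3 → ℤ) → ℝ := fun p =>
    if 0 ≤ (nF ψ p + nF ψ (-p)) / 2 - 1 / 2 * Jgd (l ^ 2 * ksq p) then 1 else -1 with hσd
  have hσ : ∀ p, σ p = 1 ∨ σ p = -1 := by
    intro p
    simp only [hσd]
    split_ifs
    · exact Or.inl rfl
    · exact Or.inr rfl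
  have hσe : ∀ p, σ (-p) = σ p := by
    intro p
    simp only [hσd, neg_neg, ksq_neg]
    rw [add_comm (nF ψ (-p)) (nF ψ p)]
  have hσa : ∀ p, |σ p| ≤ 1 := by
    intro p
    rcases hσ p with h | h
    · rw [h, abs_one]
    · rw [h, abs_neg, abs_one]
  have hpi3 := Real.pi_gt_three
  have hg : SymL κ fun p => -(κ * σ p) := by
    refine ⟨fun p => by rw [hσe], fun p => ?_, by nlinarith⟩
    rw [abs_neg, abs_mul, abs_of_pos hκ]
    exact mul_le_of_le_one_right hκ.le (hσa p)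
  -- the sums
  have sA : Summable fun p : Fin 3 → ℤ => if p = 0 then 0 else σ p * nF ψ p := by
    refine Summable.of_norm_bounded hns fun p => ?_
    split_ifs with hp
    · rw [norm_zero]; exact hn0 p
    · rw [Real.norm_eq_abs, abs_mul, abs_of_nonneg (hn0 p)]
      exact mul_le_of_le_one_left (hn0 p) (hσa p)
  have sB := S_summable hlp hσa
  have sA2 : HasSum (fun p : Fin 3 → ℤ => if p = 0 then 0 else σ p * nF ψ (-p))
      (∑' p : Fin 3 → ℤ, if p = 0 then 0 else σ p * nF ψ p) := by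
    have h1 := (Equiv.neg (Fin 3 → ℤ)).hasSum_iff.2 sA.hasSum
    refine h1.congr_fun fun p => ?_
    simp only [Function.comp_apply, Equiv.neg_apply, neg_eq_zero, hσe]
  have hdev : HasSum (dev l ψ) ((∑' p : Fin 3 → ℤ, if p = 0 then 0 else σ p * nF ψ p)
      - 1 / 2 * ∑' p : Fin 3 → ℤ, if p = 0 then 0 else σ p * Jgd (l ^ 2 * ksq p)) := by
    have h1 := ((sA.hasSum.add sA2).mul_left (1 / 2 : ℝ)).sub (sB.hasSum.mul_left (1 / 2 : ℝ))
    have e : (1 / 2 : ℝ) * ((∑' p : Fin 3 → ℤ, if p = 0 then 0 else σ p * nF ψ p)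
        + ∑' p : Fin 3 → ℤ, if p = 0 then 0 else σ p * nF ψ p)
        = ∑' p : Fin 3 → ℤ, if p = 0 then 0 else σ p * nF ψ p := by ring
    rw [e] at h1
    refine h1.congr_fun fun p => ?_
    unfold dev
    by_cases hp : p = 0
    · simp [hp]
    · simp only [if_neg hp]
      simp only [hσd]
      split_ifs with h2
      · rw [abs_of_nonneg h2]; ring
      · rw [abs_of_neg (not_le.1 h2)]; ring
  have hS3 : (∑' p : Fin 3 → ℤ, if p = 0 then 0 else σ p * et (l ^ 2 * q ^ 80) p ^ 2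
        * Jgd (l ^ 2 * ksq p))
      ≤ (∑' p : Fin 3 → ℤ, if p = 0 then 0 else σ p * Jgd (l ^ 2 * ksq p))
        + ∑' p : Fin 3 → ℤ, if p = 0 then 0 else
          (1 - Real.exp (-((l ^ 2 * (q ^ 20) ^ 4) * ksq p))) * Jgd (l ^ 2 * ksq p) := by
    have ht0 : 0 < l ^ 2 * q ^ 80 := by positivity
    have et4 : l ^ 2 * (q ^ 20) ^ 4 = l ^ 2 * q ^ 80 := by ring
    rw [et4]
    have hc1 : ∀ p, |σ p * et (l ^ 2 * q ^ 80) p ^ 2| ≤ 1 := by
      intro p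
      rw [abs_mul, abs_of_nonneg (sq_nonneg (et (l ^ 2 * q ^ 80) p))]
      exact mul_le_one₀ (hσa p) (sq_nonneg _) (S_et_le_one ht0 p)
    have hc2 : ∀ p, |1 - Real.exp (-((l ^ 2 * q ^ 80) * ksq p))| ≤ 1 := by
      intro p
      have h1 := (Real.exp_pos (-((l ^ 2 * q ^ 80) * ksq p))).le
      have h2 := S_et_le_one ht0 p
      rw [Mul_et_sq] at h2
      rw [abs_le]
      constructor <;> linarith
    have s1 := S_summable hlp hc1
    have s2 := S_summable hlp hc2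
    rw [← sB.tsum_add s2]
    refine s1.tsum_le_tsum (fun p => ?_) (sB.add s2)
    by_cases hp : p = 0
    · simp [hp]
    · simp only [if_neg hp]
      have hJ := (S_J_pos hlp hp).le
      have h2 := S_et_le_one ht0 p
      have e1 : Real.exp (-((l ^ 2 * q ^ 80) * ksq p)) = et (l ^ 2 * q ^ 80) p ^ 2 := by
        rw [Mul_et_sq]
      rw [e1]
      have h3 : -(σ p) * (1 - et (l ^ 2 * q ^ 80) p ^ 2) ≤ 1 * (1 - et (l ^ 2 * q ^ 80) p ^ 2) :=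
        mul_le_mul_of_nonneg_right ((neg_le_abs _).trans (hσa p)) (by linarith)
      have h4 := mul_le_mul_of_nonneg_right h3 hJ
      nlinarith only [h4]
  have hq20 : q ^ 20 ≤ q := by
    have hq1 : q ≤ 1 := by
      refine hq₃.trans ?_
      rw [one_mul]
      exact pow_le_one₀ hκ.le hκ1
    calc q ^ 20 = q * q ^ 19 := by ring
      _ ≤ q * 1 := mul_le_mul_of_nonneg_left (pow_le_one₀ hq.le hq1) hq.le
      _ = q := mul_one _
  have hcut' : l ^ 3 * (∑' p : Fin 3 → ℤ, if p = 0 then 0 else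
        (1 - Real.exp (-((l ^ 2 * (q ^ 20) ^ 4) * ksq p))) * Jgd (l ^ 2 * ksq p)) ≤ CC * q :=
    (hcut l (q ^ 20) hlp (by positivity)).trans (mul_le_mul_of_nonneg_left hq20 hCC.le)
  have hκ4 : κ ≤ 1 / 4 := by linarith
  have h2 := X_LSp_ge (t := l ^ 2 * q ^ 80) (by positivity) hlp hκ hκ4 hσ hg
  have h1 := hcore' (fun p => -(κ * σ p)) hg
  have hgn : (∑' p : Fin 3 → ℤ, if p = 0 then 0 else -(κ * σ p) * nF ψ p)
      = -(κ * ∑' p : Fin 3 → ℤ, if p = 0 then 0 else σ p * nF ψ p) := by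
    rw [← tsum_mul_left, ← tsum_neg]
    refine tsum_congr fun p => ?_
    split_ifs
    · simp
    · ring
  rw [hgn, sub_neg_eq_add] at h1
  have hslb' : 1 / 2 * (l ^ 3 * SLS l) ≤ Cb := by
    rw [← sl_eq hlp]; exact hslb
  have hfin := S_real hκ hlp hq hC₁ hD0 hκl h1 h2 hS3 hcut' hslb' hd
  refine ⟨?_, hdev.summable, ?_⟩
  · refine hmain.trans (mul_le_mul_of_nonneg_right ?_ hE0)
    have : 0 ≤ 1 / 2 * CC + 4 * Cb + C₁ + (C₁ * (1 + Cd) + C₁) := by positivity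
    linarith
  · rw [hdev.tsum_eq]
    refine hfin.trans ?_
    have hκs : κ ≤ Real.sqrt κ := by
      refine Real.le_sqrt_of_sq_le ?_
      nlinarith
    have hκ31 : κ ^ 3 ≤ 1 := pow_le_one₀ hκ.le hκ1
    have hq3' : q ≤ q / κ ^ 3 := by
      rw [le_div_iff₀ (by positivity)]
      exact mul_le_of_le_one_right hq.le hκ31
    have hq2' : q / κ ^ 2 ≤ q / κ ^ 3 := by
      refine div_le_div_of_nonneg_left hq.le (by positivity) ?_
      calc κ ^ 3 = κ * κ ^ 2 := by ring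
        _ ≤ 1 * κ ^ 2 := mul_le_mul_of_nonneg_right hκ1 (by positivity)
        _ = κ ^ 2 := one_mul _
    set E : ℝ := Real.sqrt κ + q / κ ^ 3 with hE
    have hqp : 0 ≤ q / κ ^ 3 := by positivity
    have b1 : q ≤ E := by linarith
    have b2 : κ ≤ E := by linarith
    have b3 : q / κ ^ 2 ≤ E := by linarith
    have c1 : 1 / 2 * CC * q ≤ 1 / 2 * CC * E := mul_le_mul_of_nonneg_left b1 (by positivity)
    have c2 : 4 * Cb * κ ≤ 4 * Cb * E := mul_le_mul_of_nonneg_left b2 (by positivity)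
    have c3 : C₁ * κ ≤ C₁ * E := mul_le_mul_of_nonneg_left b2 hC₁
    have c4 : (C₁ * (1 + Cd) + C₁) * (q / κ ^ 2) ≤ (C₁ * (1 + Cd) + C₁) * E :=
      mul_le_mul_of_nonneg_left b3 (by positivity)
    have c5 : 0 ≤ C₂ * E := mul_nonneg hC₂ hE0
    have e1 : (C₂ + (1 / 2 * CC + 4 * Cb + C₁ + (C₁ * (1 + Cd) + C₁))) * E
        = C₂ * E + 1 / 2 * CC * E + 4 * Cb * E + C₁ * E + (C₁ * (1 + Cd) + C₁) * E := by ring
    rw [e1]
    linarith

end LB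

end Pool.Agent.Lib.MP_4952d6_mp
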