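import Pool.Agent.Lib.MP_4952d6_mp.Pm.M19
import Pool.Agent.Lib.MP_4952d6_mp.Ps.S04

/-!
# Ps.S05: the occupation numbers, physical assembly
-/

set_option autoImplicit false
set_option linter.unusedSectionVars false
set_option linter.unusedVariables false
open MeasureTheory Function Filter Topology Set
open scoped ENNReal

namespace Pool.Agent.Lib.MP_4952d6_mp

namespace LB

open Pool.Agent.Lib.MP_4952d6_mp.M

lemma S5_dev_nonneg {ι : Type*} [Fintype ι] (l : ℝ) (ψ : (ι → T3) → ℂ) (p : Fin 3 → ℤ) :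
    0 ≤ dev l ψ p := by
  unfold dev
  split_ifs
  · exact le_rfl
  · exact abs_nonneg _

/-- Comparison of two lengths. -/
theorem S5_compare {ι : Type*} [Fintype ι] {ψ : (ι → T3) → ℂ} {l l' δ : ℝ} (hl' : 0 < l')
    (hll : l' ≤ l) (hδ : 0 ≤ δ) (h : l ≤ (1 + 2 * δ) * l') (hs : Summable (dev l ψ)) :
    Summable (dev l' ψ) ∧ l' ^ 3 * (∑' p, dev l' ψ p)
      ≤ l ^ 3 * (∑' p, dev l ψ p) + |sl l' - sl l| + 6 * δ * sl l := by
  have hl : 0 < l := hl'.trans_le hll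
  have s1 := X_summable hl'
  have s2 := X_summable hl
  have hle : ∀ p, dev l' ψ p ≤ dev l ψ p + 1 / 2 *
      ((if p = 0 then 0 else Jgd (l' ^ 2 * ksq p)) - if p = 0 then 0 else Jgd (l ^ 2 * ksq p)) := by
    intro p
    unfold dev
    by_cases hp : p = 0
    · simp [hp]
    · simp only [if_neg hp]
      have hk := X_ksq_ge_one hp
      have h1 : Jgd (l ^ 2 * ksq p) ≤ Jgd (l' ^ 2 * ksq p) := by
        refine Jgd_anti (by positivity) ?_
        exact mul_le_mul_of_nonneg_right (pow_le_pow_left₀ hl'.le hll 2) (by linarith)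
      have h2 : (nF ψ p + nF ψ (-p)) / 2 - 1 / 2 * Jgd (l' ^ 2 * ksq p)
          = ((nF ψ p + nF ψ (-p)) / 2 - 1 / 2 * Jgd (l ^ 2 * ksq p))
            + -(1 / 2 * (Jgd (l' ^ 2 * ksq p) - Jgd (l ^ 2 * ksq p))) := by ring
      rw [h2]
      refine (abs_add_le _ _).trans ?_
      rw [abs_neg, abs_of_nonneg (show 0 ≤ 1 / 2 * (Jgd (l' ^ 2 * ksq p) - Jgd (l ^ 2 * ksq p)) by
        linarith)]
  have s3 := hs.add ((s1.sub s2).mul_left (1 / 2 : ℝ))
  have s4 : Summable (dev l' ψ) := Summable.of_nonneg_of_le (S5_dev_nonneg l' ψ) hle s3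
  refine ⟨s4, ?_⟩
  have h3 : (∑' p, dev l' ψ p) ≤ (∑' p, dev l ψ p) + 1 / 2 * (SLS l' - SLS l) := by
    have h4 := s4.tsum_le_tsum hle s3
    rw [hs.tsum_add ((s1.sub s2).mul_left (1 / 2 : ℝ)), tsum_mul_left, s1.tsum_sub s2, ← X_SLS hl',
      ← X_SLS hl] at h4
    exact h4
  have h5 := mul_le_mul_of_nonneg_left h3 (show 0 ≤ l' ^ 3 by positivity)
  have e1 := sl_eq hl'
  have e2 := sl_eq hl
  have hd0 : 0 ≤ ∑' p, dev l ψ p := tsum_nonneg (S5_dev_nonneg l ψ)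
  have h6 : l' ^ 3 * (∑' p, dev l ψ p) ≤ l ^ 3 * (∑' p, dev l ψ p) :=
    mul_le_mul_of_nonneg_right (pow_le_pow_left₀ hl'.le hll 3) hd0
  have hsl0 := sl_nonneg hl
  have h7 : (1 - 6 * δ) * l ^ 3 ≤ l' ^ 3 := by
    rcases le_or_gt (1 - 6 * δ) 0 with h8 | h8
    · exact (mul_nonpos_of_nonpos_of_nonneg h8 (by positivity)).trans (by positivity)
    · have h9 : l ^ 3 ≤ ((1 + 2 * δ) * l') ^ 3 := pow_le_pow_left₀ hl.le h 3
      calc (1 - 6 * δ) * l ^ 3 ≤ (1 - 6 * δ) * ((1 + 2 * δ) * l') ^ 3 :=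
            mul_le_mul_of_nonneg_left h9 h8.le
        _ = ((1 - 6 * δ) * (1 + 2 * δ) ^ 3) * l' ^ 3 := by ring
        _ ≤ 1 * l' ^ 3 := by
            refine mul_le_mul_of_nonneg_right ?_ (by positivity)
            have e3 : 0 ≤ δ ^ 2 := sq_nonneg δ
            have e4 : 0 ≤ δ ^ 3 := by positivity
            have e5 : 0 ≤ δ ^ 4 := by positivity
            nlinarith only [e3, e4, e5]
        _ = l' ^ 3 := one_mul _
  have hSLS := SLS_nonneg hl
  have h8 : (1 - 6 * δ) * sl l ≤ 1 / 2 * (l' ^ 3 * SLS l) := by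
    rw [e2]
    have := mul_le_mul_of_nonneg_right h7 hSLS
    linarith
  have h9 := le_abs_self (sl l' - sl l)
  have e6 : l' ^ 3 * ((∑' p, dev l ψ p) + 1 / 2 * (SLS l' - SLS l))
      = l' ^ 3 * (∑' p, dev l ψ p) + sl l' - 1 / 2 * (l' ^ 3 * SLS l) := by
    rw [e1]; ring
  rw [e6] at h5
  linarith

end LB

/-- **Final theorem**, with the occupation numbers. -/
def M.MesoRateS : Prop :=
  ∃ κ₀ : ℝ, 0 < κ₀ ∧ ∀ (m R₀ R : ℝ) (v : (Fin 3 → ℝ) → ℝ), 0 < m → 0 ≤ R₀ → R₀ < R →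
    Integrable v → (∀ x, 0 ≤ v x) →
    (∀ x y : Fin 3 → ℝ, ∑ α, x α ^ 2 = ∑ α, y α ^ 2 → v x = v y) →
    (∀ x : Fin 3 → ℝ, R ^ 2 ≤ ∑ α, x α ^ 2 → v x = 0) → (0 < R₀ ∨ 0 < ∫ x, v x) →
    0 < scatLen m R₀ v ∧
    ∃ C ρ₀ : ℝ, 0 < C ∧ 0 < ρ₀ ∧ ∀ ρ : ℝ, 0 < ρ → ρ < ρ₀ → ∀ N : ℕ,
      10 ≤ side ρ N * Real.sqrt (ρ * scatLen m R₀ v) →
      side ρ N * Real.sqrt (ρ * scatLen m R₀ v) ≤ (ρ * scatLen m R₀ v ^ 3) ^ (-κ₀) →
      1 ≤ N ∧ (∃ φ : (Fin N → Fin 3 → ℝ) → ℂ, Admissible m R₀ v N (side ρ N) φ) ∧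
      ∀ ψ : (Fin N → Fin 3 → ℝ) → ℂ, Admissible m R₀ v N (side ρ N) ψ →
        (∀ φ : (Fin N → Fin 3 → ℝ) → ℂ, Admissible m R₀ v N (side ρ N) φ →
          energy m v N (side ρ N) ψ ≤ energy m v N (side ρ N) φ) →
        |(1 - condFraction N (side ρ N) ψ) / Real.sqrt (ρ * scatLen m R₀ v ^ 3)
          - M.sl (1 / (side ρ N * Real.sqrt (ρ * scatLen m R₀ v)))|
          ≤ C * (ρ * scatLen m R₀ v ^ 3) ^ κ₀ ∧
        Summable (M.dev (1 / (side ρ N * Real.sqrt (ρ * scatLen m R₀ v))) (TT N (side ρ N) ψ)) ∧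
        (∑' p, M.dev (1 / (side ρ N * Real.sqrt (ρ * scatLen m R₀ v))) (TT N (side ρ N) ψ) p)
            / (N * Real.sqrt (ρ * scatLen m R₀ v ^ 3))
          ≤ C * (ρ * scatLen m R₀ v ^ 3) ^ κ₀

/-- **Physical assembly.** -/
theorem meso_assembly_s (hX : M.MXSStatement) (hA : LA.MMTStatement) : M.MesoRateS := by
  obtain ⟨Mn, hX⟩ := hX
  set κ₀ : ℝ := 1 / (1600 * ((Mn : ℝ) + 3)) with hκ₀
  have hκ₀p : 0 < κ₀ := by rw [hκ₀]; positivity
  refine ⟨κ₀, hκ₀p, ?_⟩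
  intro m R₀ R v hm hR0 hR hv hv0 hrad hsupp hgen0
  have hRpos : 0 < R := hR0.trans_lt hR
  obtain ⟨g, hgm, hg0, hg⟩ := exists_rep hv hv0 hrad
  set u : ℝ → ℝ := fun r => if r < R then m * g r else 0 with hu
  have hum : Measurable u := Measurable.ite measurableSet_Iio (hgm.const_mul m) measurable_const
  have hu0 : ∀ r, 0 ≤ u r := fun r => by
    simp only [hu]; split_ifs
    · exact mul_nonneg hm.le (hg0 r)
    · exact le_rfl
  have huR : ∀ r, R ≤ r → u r = 0 := fun r hr => by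
    simp only [hu]; rw [if_neg (not_lt.2 hr)]
  have huv : ∀ᵐ r : ℝ, 0 < r → u r = m * prof v r := by
    filter_upwards [hg] with r hr hr0
    simp only [hu]
    split_ifs with h
    · rw [hr hr0]
    · have : prof v r = 0 := by
        refine hsupp _ ?_
        simp [Fin.sum_univ_three]
        push Not at h
        exact pow_le_pow_left₀ hRpos.le h 2
      rw [this, mul_zero]
  have hradp : ∀ x, v x = prof v (nr x) := prof_eq hrad
  have hvm : AEMeasurable v volume := hv.aestronglyMeasurable.aemeasurable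
  have hIv : IntegrableOn (fun r => r ^ 2 * prof v r) (Ioi (0:ℝ)) := by
    rw [← integrable_nr]
    exact hv.congr (Eventually.of_forall hradp)
  have hi : IntegrableOn (fun r => r ^ 2 * u r) (Ioi (0:ℝ)) := by
    refine (hIv.const_mul m).congr ((ae_restrict_iff' measurableSet_Ioi).2 ?_)
    filter_upwards [huv] with r hr hr0
    rw [hr hr0]; ring
  have hUm : ∫ r in Ioi (0:ℝ), r ^ 2 * u r = m * ∫ r in Ioi (0:ℝ), r ^ 2 * prof v r := by
    rw [← integral_const_mul]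
    refine setIntegral_congr_ae measurableSet_Ioi ?_
    filter_upwards [huv] with r hr hr0
    rw [hr hr0]; ring
  have hUv : ∫ x, v x = sig / m * ∫ r in Ioi (0:ℝ), r ^ 2 * u r := by
    have e1 : ∫ x, v x = sig * ∫ r in Ioi (0:ℝ), r ^ 2 * prof v r := by
      rw [← integral_nr]
      exact integral_congr_ae (Eventually.of_forall hradp)
    rw [e1, hUm]; field_simp
  set U : ℝ := ∫ r in Ioi (0:ℝ), r ^ 2 * u r with hUdef
  set al : ℝ := scatLen m R₀ v with hal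
  have hσ := sig_pos
  have hgen : 0 < R₀ ∨ 0 < U := by
    rcases hgen0 with h | h
    · exact Or.inl h
    · right
      rw [hUv] at h
      have h1 : 0 < sig / m := by positivity
      exact (mul_pos_iff_of_pos_left h1).1 h
  obtain ⟨A, hA0, halA, hup, hlow⟩ := exists_data hum hu0 hi hR0 hgen hm hv hv0 hradp huv
  have hWle : ∀ n K : ℝ, ∀ᵐ r : ℝ, 0 < r → tr u n K r ≤ m * prof v r := by
    intro n K
    filter_upwards [huv] with r hr hr0
    rw [← hr hr0]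
    exact tr_le hu0 n K r
  have hAal : A = al := by
    refine le_antisymm (le_of_forall_lt fun c hc => ?_) halA
    obtain ⟨k, hk1, hk⟩ := hlow c hc
    obtain ⟨a, f, Q, h, hca⟩ := hk k (max k (R₀ + 1)) le_rfl (le_max_left _ _)
      (lt_of_lt_of_le (by linarith) (le_max_right _ _))
    exact hca.trans_le (h.le_scatLen hm hv hv0 hradp (hWle _ _))
  rw [← hAal]
  -- constants
  set θ : ℝ := 2 * R / A with hθ
  obtain ⟨w0, hw0m, hw00, hw01, hw0R, hw0u, hw0I⟩ := F5_shape hum hu0 hR0 hR huR hgen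
  set Iw : ℝ := ∫ r in Ioi (0:ℝ), r ^ 2 * w0 r with hIw
  set cw : ℝ := sig * Iw / R with hcw
  have hcw0 : 0 < cw := by rw [hcw]; positivity
  obtain ⟨CM, u0, hCM, hu00, hA'⟩ := hA θ cw hcw0
  obtain ⟨CX, c₀, hCX, hc₀, hX'⟩ := hX θ CM
  obtain ⟨Cs, hCs, hsl⟩ := sl_close
  obtain ⟨Cb, hCb, hslb⟩ := sl_bdd
  set τ : ℝ := min (min c₀ (1 / 5)) (u0 / 2) with hτd
  have hτ0 : 0 < τ := by
    rw [hτd]
    exact lt_min (lt_min hc₀ (by norm_num)) (by positivity)
  have hτc : τ ≤ c₀ := (min_le_left _ _).trans (min_le_left _ _)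
  have hτ5 : τ ≤ 1 / 5 := (min_le_left _ _).trans (min_le_right _ _)
  have hτ1 : τ ≤ 1 / 2 := by linarith
  have hτu : τ ≤ u0 / 2 := min_le_right _ _
  refine ⟨hA0, 2 * CX + 6 * Cb + 2 * Cs, min (τ ^ (1 / κ₀) / A ^ 3) (25 / (A * R ^ 2)),
    by positivity, lt_min (by positivity) (by positivity), ?_⟩
  intro ρ hρ hρ1 N hK1 hK2
  have hρa : ρ < τ ^ (1 / κ₀) / A ^ 3 := hρ1.trans_le (min_le_left _ _)
  have hρb : ρ < 25 / (A * R ^ 2) := hρ1.trans_le (min_le_right _ _)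
  have hN1 : 1 ≤ N := by
    rcases Nat.eq_zero_or_pos N with h | h
    · exfalso
      rw [h] at hK1
      have h0 : side ρ 0 = 0 := by
        unfold side
        rw [Nat.cast_zero, zero_div, Real.zero_rpow (by norm_num)]
      rw [h0, zero_mul] at hK1
      linarith
    · exact h
  have hN0 : (0:ℝ) < N := by exact_mod_cast hN1
  have hL := side_pos hρ hN1
  have hL3 := side_cube hρ hN1
  set L : ℝ := side ρ N with hLdef
  -- parameters
  have hZ : 0 < ρ * A ^ 3 := by positivity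
  have hZτ : ρ * A ^ 3 < τ ^ (1 / κ₀) := by rwa [lt_div_iff₀ (by positivity)] at hρa
  obtain ⟨κ, z, hκ, hz, hκZ, hzZ, hzκ, hκs, hZκτ, hzZκ, hκ1⟩ := Asm_par hκ₀ hZ hτ1 hτ0 hZτ
  have hzτ : z ≤ τ := hzZκ.trans hZκτ
  obtain ⟨δ, hδd⟩ : ∃ δ : ℝ, δ = (ρ * A ^ 3) ^ κ₀ := ⟨_, rfl⟩
  have hδ0 : 0 < δ := by rw [hδd]; positivity
  have hδ1 : δ ≤ 1 / 5 := by rw [hδd]; exact hZκτ.trans hτ5
  have hK : 0 < L * Real.sqrt (ρ * A) := by linarith
  have h2R : 2 * R < L := by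
    have h1 : Real.sqrt (ρ * A) * R < 5 := by
      have h2 : ρ * (A * R ^ 2) < 25 := by rwa [lt_div_iff₀ (by positivity)] at hρb
      have h3 : Real.sqrt (ρ * A) * R = Real.sqrt (ρ * (A * R ^ 2)) := by
        rw [← mul_assoc, Real.sqrt_mul (show 0 ≤ ρ * A by positivity) (R ^ 2),
          Real.sqrt_sq hRpos.le]
      rw [h3, Real.sqrt_lt' (by norm_num)]
      linarith
    have h4 : 0 < Real.sqrt (ρ * A) := Real.sqrt_pos.2 (by positivity)
    have h5 : 2 * R * Real.sqrt (ρ * A) < L * Real.sqrt (ρ * A) := by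
      nlinarith only [h1, hK1]
    exact lt_of_mul_lt_mul_right h5 h4.le
  -- truncation
  obtain ⟨k, hk1, hk⟩ := hlow ((1 - δ) * A) (by
    have := mul_pos hδ0 hA0
    linarith only [this])
  set qm : ℝ := (ρ * (A / 2) ^ 3) ^ ((1 : ℝ) / 400) with hqm
  have hqm0 : 0 < qm := by rw [hqm]; positivity
  set ε₁ : ℝ := min (A / 2 * qm ^ 201 / (2 * sig)) (A / (4 * sig)) with hε₁
  have hε₁0 : 0 < ε₁ := by rw [hε₁]; exact lt_min (by positivity) (by positivity)
  have hε₁2 : ε₁ ≤ A / 2 * qm ^ 201 / (2 * sig) := min_le_left _ _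
  have hε₁3 : ε₁ ≤ A / (4 * sig) := min_le_right _ _
  obtain ⟨k₂, hk₂1, hk₂⟩ := tr_small hum hu0 hi hε₁0
  set n : ℝ := max k k₂ with hn
  set K : ℝ := max n R with hKd
  have hn1 : 1 ≤ n := hk1.trans (le_max_left _ _)
  have hn0 : 0 ≤ n := by linarith
  have hfun : tr u n K = tr u n R := by
    funext r
    unfold tr
    by_cases h1 : r < R
    · rw [if_pos h1, if_pos (h1.trans_le (le_max_right _ _))]
    · rw [if_neg h1, huR r (not_lt.1 h1), min_eq_left hn0]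
      split_ifs <;> rfl
  obtain ⟨a', f', Q', h', hca'⟩ := hk n K (le_max_left _ _)
    ((le_max_left _ _).trans (le_max_left _ _)) (hR.trans_le (le_max_right _ _))
  have hgen' : 0 < R₀ ∨ 0 < ∫ r in Ioi (0:ℝ), r ^ 2 * tr u n R r := by
    rcases hR0.eq_or_lt with h0 | h0
    · right
      have h1 := h'.a_le_int
      rw [← h0, zero_add, tr_integral_Ioi (hRpos.le.trans (le_max_right _ _)), hfun] at h1
      exact h'.a_pos.trans_le h1
    · exact Or.inl h0
  obtain ⟨a, f, Q, h⟩ := scat_tr hum hu0 hR0 hn0 hR hgen'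
  have haa : a' ≤ a := h.mono h' fun r _ => le_of_eq (by rw [hfun])
  have haA' : (1 - δ) * A ≤ a := hca'.le.trans haa
  have haA : a ≤ A := hup n R a f Q hn0 h
  have ha : 0 < a := h.a_pos
  have hA2a : A ≤ 2 * a := by
    have h1 := mul_le_mul_of_nonneg_right hδ1 hA0.le
    linarith only [haA', h1, hA0]
  have hcharge : U - (∫ r in Ioi (0:ℝ), r ^ 2 * tr u n R r) ≤ ε₁ := by
    have h1 := hk₂ n K (le_max_right _ _) ((le_max_right _ _).trans (le_max_left _ _))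
    rwa [hfun] at h1
  have hcharge0 : 0 ≤ U - (∫ r in Ioi (0:ℝ), r ^ 2 * tr u n R r) := by
    have h1 : ∫ r in Ioi (0:ℝ), r ^ 2 * tr u n R r ≤ U :=
      integral_mono (tr_int hum hu0 hi hn0 R) hi fun r =>
        mul_le_mul_of_nonneg_left (tr_le hu0 n R r) (sq_nonneg r)
    linarith
  have hI0 : 0 ≤ ∫ r in Ioi (0:ℝ), r ^ 2 * tr u n R r :=
    setIntegral_nonneg measurableSet_Ioi fun r _ => mul_nonneg (sq_nonneg r) (h.W_nonneg r)
  obtain ⟨hr1, hr2, hr3, hr4⟩ := Asm_ratio hρ ha haA hδ0.le hδ1 haA'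
  -- the parameter q
  set q : ℝ := (ρ * a ^ 3) ^ ((1 : ℝ) / 400) with hqd
  have hra : 0 < ρ * a ^ 3 := by positivity
  have hq0 : 0 < q := Real.rpow_pos_of_pos hra _
  have hq400 : q ^ 400 = ρ * a ^ 3 := by
    rw [hqd, ← Real.rpow_natCast, ← Real.rpow_mul hra.le]
    norm_num
  have hqmq : qm ≤ q := by
    rw [hqm, hqd]
    refine Real.rpow_le_rpow (by positivity) ?_ (by norm_num)
    have h1 : A / 2 ≤ a := by linarith
    gcongr
  have hq200 : q ^ 200 = Real.sqrt (ρ * a ^ 3) := by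
    rw [← hq400, show q ^ 400 = (q ^ 200) ^ 2 by ring, Real.sqrt_sq (by positivity)]
  have hqz : q ^ 400 ≤ z ^ 800 := by
    rw [hq400, hzZ]
    gcongr
  obtain ⟨hqκ, hq3, hqz2⟩ := Asm_q hκ hκ1 hz hq0 hzκ hqz hzτ hτc
  have hNa : (N:ℝ) * (a / L) ^ 3 = q ^ 400 := by
    rw [hq400, ← hL3, div_pow]
    field_simp
  -- the length l
  have hrA : 0 < Real.sqrt (ρ * A) := Real.sqrt_pos.2 (by positivity)
  have hrap : 0 < Real.sqrt (ρ * a) := Real.sqrt_pos.2 (by positivity)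
  have hl : lq q (a / L) = 1 / (L * Real.sqrt (ρ * a)) := by
    unfold lq
    rw [hq200]
    have h1 : Real.sqrt (ρ * a ^ 3) = a * Real.sqrt (ρ * a) := by
      rw [show ρ * a ^ 3 = a ^ 2 * (ρ * a) by ring, Real.sqrt_mul (by positivity),
        Real.sqrt_sq ha.le]
    rw [h1]
    field_simp
  have hlpos : 0 < lq q (a / L) := by rw [hl]; positivity
  have hKn8 : 8 ≤ L * Real.sqrt (ρ * a) := by
    have h1 : L * Real.sqrt (ρ * A) ≤ L * ((1 + 2 * δ) * Real.sqrt (ρ * a)) :=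
      mul_le_mul_of_nonneg_left hr3 hL.le
    -- use the sharper bound `√(1-δ) ≥ 4/5`
    have h2 : 4 / 5 * Real.sqrt (ρ * A) ≤ Real.sqrt (ρ * a) := by
      refine Real.le_sqrt_of_sq_le ?_
      rw [mul_pow, Real.sq_sqrt (by positivity)]
      have h3 : (1 - 1 / 5) * A ≤ a := by
        refine le_trans ?_ haA'
        exact mul_le_mul_of_nonneg_right (by linarith) hA0.le
      have h4 : (4 / 5 : ℝ) ^ 2 * (ρ * A) ≤ ρ * ((1 - 1 / 5) * A) := by
        nlinarith only [mul_pos hρ hA0]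
      exact h4.trans (mul_le_mul_of_nonneg_left h3 hρ.le)
    nlinarith only [mul_le_mul_of_nonneg_left h2 hL.le, hK1]
  have hl8 : a / L ≤ q ^ 200 / 8 := by
    have h1 : lq q (a / L) ≤ 1 / 8 := by
      rw [hl]
      exact one_div_le_one_div_of_le (by norm_num) hKn8
    unfold lq at h1
    rw [div_le_iff₀ (by positivity)] at h1
    linarith
  have hκl : κ ≤ lq q (a / L) ^ 2 := by
    have h1 : 1 / (L * Real.sqrt (ρ * A)) ≤ lq q (a / L) := by
      rw [hl]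
      exact one_div_le_one_div_of_le (by positivity) (mul_le_mul_of_nonneg_left hr4 hL.le)
    have h2 : (ρ * A ^ 3) ^ κ₀ ≤ 1 / (L * Real.sqrt (ρ * A)) := by
      rw [Real.rpow_neg hZ.le] at hK2
      rw [le_one_div (Real.rpow_pos_of_pos hZ _) hK, one_div]
      exact hK2
    have h3 : κ = ((ρ * A ^ 3) ^ κ₀) ^ 2 := by
      rw [hκZ, show 2 * κ₀ = κ₀ * 2 by ring, Real.rpow_mul hZ.le, Real.rpow_two]
    rw [h3]
    exact pow_le_pow_left₀ (Real.rpow_nonneg hZ.le _) (h2.trans h1) 2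
  have hRθ : R / L ≤ θ * (a / L) := by
    rw [← mul_div_assoc]
    refine div_le_div_of_nonneg_right ?_ hL.le
    rw [hθ, div_mul_eq_mul_div, le_div_iff₀ hA0]
    linarith only [mul_le_mul_of_nonneg_left hA2a hRpos.le]
  have hscat := h.scale hL
  have hpot := F4_pot h hm hradp (hWle n R) hL
  have hVm : AEMeasurable (Vp m L v) lam3 := (aem_vper hL hvm).const_mul _
  have hch := F4_charge hm hv hv0 hradp hL
  rw [← hUm] at hch
  have hchW := F4_chargeW h hL h2R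
  -- the charge difference
  set cd : ℝ := U - (∫ r in Ioi (0:ℝ), r ^ 2 * tr u n R r) with hcd
  -- moments
  have hRL : 0 < R / L := by positivity
  have hwm : Measurable fun t : ℝ => L ^ 2 * w0 (L * t) :=
    (hw0m.comp (measurable_const_mul L)).const_mul _
  have hwn : ∀ t, 0 ≤ L ^ 2 * w0 (L * t) := fun t => by
    have := hw00 (L * t)
    positivity
  have hwb : ∀ t, L ^ 2 * w0 (L * t) ≤ ((R / L)⁻¹) ^ 2 := fun t => by
    have h1 := mul_le_mul_of_nonneg_left (hw01 (L * t)) (sq_nonneg L)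
    refine h1.trans (le_of_eq ?_)
    rw [inv_div, div_pow, inv_pow]
    field_simp
  have hwz : ∀ t, R / L ≤ t → L ^ 2 * w0 (L * t) = 0 := fun t ht => by
    rw [div_le_iff₀ hL] at ht
    rw [hw0R (L * t) (by linarith), mul_zero]
  have hwc : cw * (R / L) ≤ sig * ∫ t in Ioi (0:ℝ), t ^ 2 * (L ^ 2 * w0 (L * t)) := by
    rw [F5_scale hL, ← hIw, hcw]
    refine le_of_eq ?_
    field_simp
  have hwV : ∀ᵐ y ∂lam3, R₀ / L ≤ rr y →
      ENNReal.ofReal (L ^ 2 * w0 (L * rr y)) ≤ Vp m L v y := by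
    have h1 : ∀ᵐ r : ℝ, 0 < r → (if r < R₀ then 0 else w0 r / 2) ≤ m * prof v r := by
      filter_upwards [huv] with r hr hr0
      rw [← hr hr0]
      split_ifs with h2
      · exact hu0 r
      · have := hw0u r (not_lt.1 h2)
        linarith
    have h3 := F5_pot hm hradp h1 hL
    filter_upwards [h3] with y hy hy1
    rw [div_le_iff₀ hL] at hy1
    rw [if_neg (not_lt.2 (by linarith))] at hy
    refine le_trans (le_of_eq ?_) hy
    congr 1
    ring
  have hcV : ∫⁻ y, Vp m L v y ∂lam3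
      ≤ (∫⁻ y, ENNReal.ofReal (2 * (L ^ 2 * tr u n R (L * rr y))) ∂lam3)
        + ENNReal.ofReal (a / L) := by
    rw [hch, hchW, ← ENNReal.ofReal_add (by positivity) (by positivity)]
    refine ENNReal.ofReal_le_ofReal ?_
    have h1 : 2 * sig * cd ≤ a := by
      calc 2 * sig * cd ≤ 2 * sig * (A / (4 * sig)) := by
            have := hcharge.trans hε₁3
            gcongr
        _ = A / 2 := by field_simp; ring
        _ ≤ a := by linarith
    have h2 : 2 * sig / L * U - 2 * sig / L * (∫ r in Ioi (0:ℝ), r ^ 2 * tr u n R r) ≤ a / L := by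
      rw [← mul_sub, div_mul_eq_mul_div]
      exact div_le_div_of_nonneg_right h1 hL.le
    linarith
  have hq1 : q ≤ τ := by
    have h1 : z ^ 2 ≤ z := by
      have h2 : z ≤ 1 := by linarith
      nlinarith only [h2, hz]
    linarith
  have hu0q : q ^ 10 < u0 := by
    have h1 : q ^ 10 ≤ q := by
      calc q ^ 10 = q * q ^ 9 := by ring
        _ ≤ q * 1 := mul_le_mul_of_nonneg_left (pow_le_one₀ hq0.le (by linarith)) hq0.le
        _ = q := mul_one _
    linarith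
  -- the rest of the potential
  have hWm : Measurable (fun y : T3 => ENNReal.ofReal (2 * (L ^ 2 * tr u n R (L * rr y)))) :=
    (((h.W_meas.comp ((measurable_const_mul L).comp rr_measurable)).const_mul
      _).const_mul _).ennreal_ofReal
  set V₂ : T3 → ℝ≥0∞ := fun y =>
    hVm.mk (Vp m L v) y - ENNReal.ofReal (2 * (L ^ 2 * tr u n R (L * rr y))) with hV₂
  have hV₂m : Measurable V₂ := hVm.measurable_mk.sub hWm
  have hle2 : ∀ᵐ y ∂lam3, Vp m L v y ≤
      ENNReal.ofReal (2 * (L ^ 2 * tr u n R (L * rr y))) + V₂ y := by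
    filter_upwards [hVm.ae_eq_mk] with y hy
    rw [hy, hV₂]
    exact le_add_tsub
  have hint : ∫⁻ y, V₂ y ∂lam3 ≤ ENNReal.ofReal (a / L * q ^ 201) := by
    have h1 : ∫⁻ y, V₂ y ∂lam3 = (∫⁻ y, Vp m L v y ∂lam3)
        - ∫⁻ y, ENNReal.ofReal (2 * (L ^ 2 * tr u n R (L * rr y))) ∂lam3 := by
      rw [hV₂, lintegral_sub hWm (by rw [hchW]; exact ENNReal.ofReal_ne_top) ?_]
      · rw [lintegral_congr_ae hVm.ae_eq_mk.symm]
      · filter_upwards [hpot, hVm.ae_eq_mk] with y hy hy2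
        rw [← hy2]
        exact hy
    rw [h1, hch, hchW, ← ENNReal.ofReal_sub _ (by positivity), ← mul_sub]
    refine ENNReal.ofReal_le_ofReal ?_
    have h2 : 2 * sig * cd ≤ a * q ^ 201 := by
      calc 2 * sig * cd ≤ 2 * sig * (A / 2 * qm ^ 201 / (2 * sig)) := by
            have := hcharge.trans hε₁2
            gcongr
        _ = A / 2 * qm ^ 201 := by field_simp
        _ ≤ a * q ^ 201 := by
            have h3 : A / 2 ≤ a := by linarith
            gcongr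
    calc 2 * sig / L * cd = (2 * sig * cd) / L := by ring
      _ ≤ (a * q ^ 201) / L := div_le_div_of_nonneg_right h2 hL.le
      _ = a / L * q ^ 201 := by ring
  obtain ⟨⟨φ, hφ⟩, hfinX⟩ := hX' κ q hκ hq0 hqκ N _ _ _ _ _ _ hscat hNa hl8 hκl hRθ (Vp m L v)
    V₂ hV₂m hpot hle2 hint
  refine ⟨hN1, ⟨BB N L φ, adm_BB hm hL hR0 hvm hφ⟩, fun ψ hψ hmin => ?_⟩
  have hmin' := F4_min hm hL hR0 hvm hψ hmin
  have hadm := adm_TT hm hL hR0 hvm hψ
  have hloc := hA' (q ^ 10) (by positivity) hu0q N _ _ _ (fun t => L ^ 2 * w0 (L * t)) _ _ _ hscat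
    (by rw [← pow_mul]; exact hl8) (by rw [← pow_mul]; exact hNa) hRθ hwm hwn hwb hwz hwc
    (Vp m L v) hVm (F5_Vp_neg hL hrad) hpot hcV hwV (TT N L ψ) hadm hmin'
    ((a / L / (q ^ 10) ^ 16) ^ 2) (by
      have : 0 ≤ (a / L / (q ^ 10) ^ 16) ^ 2 := sq_nonneg _
      linarith) (by
      have : 0 ≤ (a / L / (q ^ 10) ^ 16) ^ 2 := sq_nonneg _
      linarith)
  have hexp : (q ^ 10) ^ 16 = q ^ 160 := by rw [← pow_mul]
  rw [hexp] at hloc
  obtain ⟨hfin, hsum, hl1⟩ := hfinX (TT N L ψ) hadm hmin' hloc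
  rw [condFraction_eq hN1 hL hψ]
  set D : ℝ := ∑ i, nuQ (fc (TT N L ψ)) i with hD
  have hYpos : 0 < Real.sqrt (ρ * a ^ 3) := Y_pos hρ ha
  have hYApos : 0 < Real.sqrt (ρ * A ^ 3) := Y_pos hρ hA0
  have hd : lq q (a / L) ^ 3 * D = (1 - (1 - D / N)) / Real.sqrt (ρ * a ^ 3) := by
    have h1 : lq q (a / L) ^ 3 = 1 / (N * Real.sqrt (ρ * a ^ 3)) := by
      unfold lq
      rw [hq200, div_pow, div_pow]
      have h2 : Real.sqrt (ρ * a ^ 3) ^ 3 = ρ * a ^ 3 * Real.sqrt (ρ * a ^ 3) := by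
        rw [show Real.sqrt (ρ * a ^ 3) ^ 3 = Real.sqrt (ρ * a ^ 3) ^ 2 * Real.sqrt (ρ * a ^ 3) by
          ring, Y_sq hρ ha]
      rw [h2]
      have h3 : (N : ℝ) = ρ * L ^ 3 := by
        rw [div_eq_iff (by positivity)] at hL3
        exact hL3
      rw [h3]
      field_simp
    rw [h1]
    field_simp
    ring
  rw [hd] at hfin
  have hCX2 : CX * (Real.sqrt κ + q / κ ^ 3) ≤ 2 * CX * δ := by
    have h1 : Real.sqrt κ + q / κ ^ 3 ≤ 2 * δ := by
      rw [hκs, hδd]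
      linarith
    calc CX * (Real.sqrt κ + q / κ ^ 3) ≤ CX * (2 * δ) := mul_le_mul_of_nonneg_left h1 hCX
      _ = _ := by ring
  have hsl2 : |M.sl (lq q (a / L)) - M.sl (1 / (L * Real.sqrt (ρ * A)))| ≤ Cs * (2 * δ) := by
    refine hsl _ _ (2 * δ) (by positivity) hlpos (by positivity) (by linarith) ?_ ?_
    · rw [hl, ← mul_one_div, mul_comm (1 + 2 * δ), one_div_mul_eq_div, mul_one_div,
        div_le_div_iff₀ (by positivity) (by positivity)]
      calc 1 * (L * Real.sqrt (ρ * A)) ≤ L * ((1 + 2 * δ) * Real.sqrt (ρ * a)) := by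
            rw [one_mul]
            exact mul_le_mul_of_nonneg_left hr3 hL.le
        _ = _ := by ring
    · rw [hl]
      have h1 : 1 / (L * Real.sqrt (ρ * A)) ≤ 1 / (L * Real.sqrt (ρ * a)) :=
        one_div_le_one_div_of_le (by positivity) (mul_le_mul_of_nonneg_left hr4 hL.le)
      refine h1.trans ?_
      have h2 : 0 < 1 / (L * Real.sqrt (ρ * a)) := by positivity
      nlinarith only [h2, hδ0]
  have hend := Asm_num hYpos hYApos hr1 hr2 hδ0.le (sl_nonneg hlpos) (hslb _ hlpos) hfin hsl2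
  rw [← hδd]
  have hCbδ : 0 ≤ Cb * δ := by positivity
  refine ⟨hend.trans (by linarith only [hCX2, hCbδ]), ?_⟩
  -- the occupation numbers
  have hlA : 0 < 1 / (L * Real.sqrt (ρ * A)) := by positivity
  have hle1 : 1 / (L * Real.sqrt (ρ * A)) ≤ lq q (a / L) := by
    rw [hl]
    exact one_div_le_one_div_of_le (by positivity) (mul_le_mul_of_nonneg_left hr4 hL.le)
  have hle2 : lq q (a / L) ≤ (1 + 2 * δ) * (1 / (L * Real.sqrt (ρ * A))) := by
    rw [hl, mul_one_div, div_le_div_iff₀ (by positivity) (by positivity)]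
    calc 1 * (L * Real.sqrt (ρ * A)) ≤ L * ((1 + 2 * δ) * Real.sqrt (ρ * a)) := by
          rw [one_mul]
          exact mul_le_mul_of_nonneg_left hr3 hL.le
      _ = _ := by ring
  obtain ⟨hs1, hs2⟩ := LB.S5_compare hlA hle1 hδ0.le hle2 hsum
  refine ⟨hs1, ?_⟩
  have hlA3 : (1 / (L * Real.sqrt (ρ * A))) ^ 3 = 1 / (N * Real.sqrt (ρ * A ^ 3)) := by
    have e1 : Real.sqrt (ρ * A ^ 3) = A * Real.sqrt (ρ * A) := by
      rw [show ρ * A ^ 3 = A ^ 2 * (ρ * A) by ring, Real.sqrt_mul (by positivity),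
        Real.sqrt_sq hA0.le]
    have e2 : (N : ℝ) = ρ * L ^ 3 := by
      have h3 := hL3
      rw [div_eq_iff (by positivity)] at h3
      exact h3
    have e3 : Real.sqrt (ρ * A) ^ 3 = ρ * A * Real.sqrt (ρ * A) := by
      rw [show Real.sqrt (ρ * A) ^ 3 = Real.sqrt (ρ * A) ^ 2 * Real.sqrt (ρ * A) by ring,
        Real.sq_sqrt (by positivity)]
    rw [e1, e2, div_pow, mul_pow, one_pow, e3]
    congr 1
    ring
  have hfin1 : (∑' p, M.dev (1 / (L * Real.sqrt (ρ * A))) (TT N L ψ) p) / (N * Real.sqrt (ρ * A ^ 3))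
      = (1 / (L * Real.sqrt (ρ * A))) ^ 3
        * ∑' p, M.dev (1 / (L * Real.sqrt (ρ * A))) (TT N L ψ) p := by
    rw [hlA3]
    ring
  rw [hfin1]
  refine hs2.trans ?_
  have h6 : 6 * δ * M.sl (lq q (a / L)) ≤ 6 * δ * Cb :=
    mul_le_mul_of_nonneg_left (hslb _ hlpos) (by positivity)
  rw [abs_sub_comm] at hsl2
  linarith only [hl1, hCX2, hsl2, h6]


end Pool.Agent.Lib.MP_4952d6_mp
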