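import Pool.Agent.Lib.MP_4952d6_mp.Pm.M20
import Pool.Agent.Lib.MP_4952d6_mp.Ps.S05

/-!
# Ps.S06: the occupation numbers, final form
-/

set_option autoImplicit false
set_option linter.unusedSectionVars false
set_option linter.unusedVariables false
open MeasureTheory Function Filter Topology Set
open scoped ENNReal

namespace Pool.Agent.Lib.MP_4952d6_mp

theorem meso_rate_s : M.MesoRateS :=
  meso_assembly_s (LB.mxs_final LB.mls_statement (M.mustatement M.mg_statement) M.VD_main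
    (M.mxe_of
      (LB.mx_final LB.ml_statement (M.mustatement M.mg_statement) M.VD_main)
      (M.mustatement M.mg_statement))) LA.mm_final

/-- The number of the particles with momentum `2 π k / L`, on the torus. -/
lemma S6_nF {N : ℕ} {L : ℝ} (hL : 0 < L) {ψ : (Fin N → Fin 3 → ℝ) → ℂ}
    (hψ : AEStronglyMeasurable ψ (volume.restrict (box N L))) (p : Fin 3 → ℤ) :
    M.nF (TT N L ψ) p
      = ∑ i : Fin N, ∑' k : Fin N → Fin 3 → ℤ, if k i = p then ‖fourierC N L ψ k‖ ^ 2 else 0 := by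
  unfold M.nF
  refine Finset.sum_congr rfl fun i _ => tsum_congr fun k => ?_
  rw [fourierC_eq hL hψ]

/-- Real numbers: the total deviation. -/
lemma S6_real {ρ a L K κ C S : ℝ} {N : ℕ} (hρ : 0 < ρ) (ha : 0 < a) (hL : 0 < L)
    (hN : (N : ℝ) = ρ * L ^ 3) (hK : K = L * Real.sqrt (ρ * a)) (hZ1 : ρ * a ^ 3 ≤ 1)
    (hκ : 0 < κ) (hC : 0 ≤ C) (hK2 : K ≤ (ρ * a ^ 3) ^ (-κ))
    (h : S / (N * Real.sqrt (ρ * a ^ 3)) ≤ C * (ρ * a ^ 3) ^ (4 * κ)) :
    S ≤ C * (ρ * a ^ 3) ^ κ := by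
  have hZ : 0 < ρ * a ^ 3 := by positivity
  have hsa : 0 < Real.sqrt (ρ * a) := Real.sqrt_pos.2 (by positivity)
  have hK0 : 0 < K := by rw [hK]; positivity
  have hNY : (N : ℝ) * Real.sqrt (ρ * a ^ 3) = K ^ 3 := by
    have e1 : Real.sqrt (ρ * a ^ 3) = a * Real.sqrt (ρ * a) := by
      rw [show ρ * a ^ 3 = a ^ 2 * (ρ * a) by ring, Real.sqrt_mul (by positivity),
        Real.sqrt_sq ha.le]
    have e3 : Real.sqrt (ρ * a) ^ 3 = ρ * a * Real.sqrt (ρ * a) := by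
      rw [show Real.sqrt (ρ * a) ^ 3 = Real.sqrt (ρ * a) ^ 2 * Real.sqrt (ρ * a) by ring,
        Real.sq_sqrt (by positivity)]
    rw [hN, hK, mul_pow, e1, e3]
    ring
  rw [hNY, div_le_iff₀ (by positivity)] at h
  have h1 : K ^ 3 ≤ (ρ * a ^ 3) ^ (-(3 * κ)) := by
    calc K ^ 3 ≤ ((ρ * a ^ 3) ^ (-κ)) ^ 3 := pow_le_pow_left₀ hK0.le hK2 3
      _ = (ρ * a ^ 3) ^ (-(3 * κ)) := by
        rw [← Real.rpow_natCast, ← Real.rpow_mul hZ.le]
        congr 1
        push_cast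
        ring
  calc S ≤ C * (ρ * a ^ 3) ^ (4 * κ) * K ^ 3 := h
    _ ≤ C * (ρ * a ^ 3) ^ (4 * κ) * (ρ * a ^ 3) ^ (-(3 * κ)) := by gcongr
    _ = C * (ρ * a ^ 3) ^ κ := by
      rw [mul_assoc, ← Real.rpow_add hZ]
      congr 2
      ring

end Pool.Agent.Lib.MP_4952d6_mp
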